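import Pool.Agent.P.MP_657a03_nt.G3.Iface

/-! Step DESC. -/

set_option autoImplicit false

namespace Pool.Agent.P.MP_657a03_nt.G3

open NumberField Polynomial Finset
open scoped Classical
open Pool.Agent.P.MP_657a03_nt.G5

namespace DESCc

open scoped nonZeroDivisors

theorem prin_pow (k : Type) [Field k] [NumberField k] (J : Ideal (𝓞 k)) :
    (J ^ classNumber k).IsPrincipal := by
  by_cases h : J = 0
  · rw [h, zero_pow (classNumber_ne_zero k)]
    exact bot_isPrincipal
  · have h1 : J ∈ (Ideal (𝓞 k))⁰ := mem_nonZeroDivisors_of_ne_zero h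
    have h2 : ClassGroup.mk0 ((⟨J, h1⟩ : (Ideal (𝓞 k))⁰) ^ classNumber k) = 1 := by
      rw [map_pow, classNumber, pow_card_eq_one]
    exact (ClassGroup.mk0_eq_one_iff ((⟨J, h1⟩ : (Ideal (𝓞 k))⁰) ^ classNumber k).2).1 h2

theorem nrm (hNRM : S_NRM) (k K : Type) [Field k] [Field K] [NumberField k] [NumberField K]
    [Algebra k K] [IsGalois k K] (I : Ideal (𝓞 K)) :
    ((∏ σ : K ≃ₐ[k] K, I.map (RingOfIntegers.mapRingHom (σ : K →+* K))) ^
      classNumber k).IsPrincipal := by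
  obtain ⟨J, hJ⟩ := hNRM k K I
  rw [← hJ, ← Ideal.map_pow]
  exact (prin_pow k J).map_ringHom _

theorem sub (hNRM : S_NRM) {K : Type} [Field K] [NumberField K] [IsGalois ℚ K]
    (H : Subgroup (K ≃ₐ[ℚ] K)) (I : Ideal (𝓞 K)) (T : Finset (K ≃ₐ[ℚ] K))
    (hT : ∀ σ, σ ∈ T ↔ σ ∈ H) :
    ((∏ σ ∈ T, I.map (RingOfIntegers.mapRingHom (σ : K →+* K))) ^
      classNumber (IntermediateField.fixedField H)).IsPrincipal := by
  have h := nrm hNRM (IntermediateField.fixedField H) K I
  rw [← (IntermediateField.subgroupEquivAlgEquiv H).toEquiv.prod_comp] at h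
  rw [prod_subtype (p := (· ∈ H)) _ hT]
  exact h

theorem sg_sum {ι : Type} (e : ι → ZMod 2) (S : Finset ι) :
    ∏ i ∈ S, (-1 : ℤ) ^ (e i).val = (-1) ^ (∑ i ∈ S, e i).val := by
  induction S using Finset.induction_on with
  | empty => simp
  | insert a S ha ih =>
    rw [prod_insert ha, sum_insert ha, ih]
    exact (by decide : ∀ a b : ZMod 2, (-1 : ℤ) ^ a.val * (-1) ^ b.val = (-1) ^ (a + b).val) _ _

theorem cnt {t : ℕ} (e : Fin t → ZMod 2) :
    2 * (univ.filter fun S : Finset (Fin t) => ∑ i ∈ S, e i = 0).card =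
      2 ^ t + if e = 0 then 2 ^ t else 0 := by
  have h0 : ∀ a : ZMod 2, 1 + (-1 : ℤ) ^ a.val = if a = 0 then 2 else 0 := by decide
  have h1 : ∑ S : Finset (Fin t), (1 + ∏ i ∈ S, (-1 : ℤ) ^ (e i).val) =
      2 ^ t + ∏ i, (1 + (-1 : ℤ) ^ (e i).val) := by
    rw [sum_add_distrib, prod_one_add, powerset_univ]
    simp
  simp only [sg_sum, h0] at h1
  rw [← sum_filter, sum_const] at h1
  have h2 : ∏ i, (if e i = 0 then (2 : ℤ) else 0) = if e = 0 then 2 ^ t else 0 := by
    split_ifs with h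
    · simp [h]
    · obtain ⟨i, hi⟩ := Function.ne_iff.1 h
      exact prod_eq_zero (mem_univ i) (if_neg hi)
  rw [h2, nsmul_eq_mul, mul_comm] at h1
  exact_mod_cast h1

theorem one_of {A : Type} [Monoid A] {c : A} {m n : ℕ} (h : Nat.Coprime m n) (h1 : c ^ m = 1)
    (h2 : c ^ n = 1) : c = 1 := by
  have := (pow_gcd_eq_one (a := c)).2 ⟨h1, h2⟩
  rwa [h, pow_one] at this

end DESCc

open DESCc nonZeroDivisors in
theorem p_DESC (hNRM : S_NRM) :
    S_DESC := by
  intro t K _ _ d r p h hp hp2 hS hdvd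
  have := h.gal
  have := Fact.mk hp
  obtain ⟨E, hE⟩ := h.grp
  obtain ⟨x, hx⟩ := exists_prime_orderOf_dvd_card (G := ClassGroup (𝓞 K)) p hdvd
  obtain ⟨I, rfl⟩ := ClassGroup.mk0_surjective x
  let a : (K ≃ₐ[ℚ] K) → (Ideal (𝓞 K))⁰ := fun σ =>
    ⟨I.1.map (RingOfIntegers.mapRingHom (σ : K →+* K)), mem_nonZeroDivisors_of_ne_zero fun e =>
      nonZeroDivisors.coe_ne_zero I ((Ideal.map_eq_bot_iff_of_injective fun u v huv => by
        ext
        exact σ.injective (congrArg (fun z : 𝓞 K => (z : K)) huv)).1 e)⟩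
  have key : ∀ (T : Finset (K ≃ₐ[ℚ] K)) (n : ℕ),
      ((∏ σ ∈ T, I.1.map (RingOfIntegers.mapRingHom (σ : K →+* K))) ^ n).IsPrincipal →
      (∏ σ ∈ T, ClassGroup.mk0 (a σ)) ^ n = 1 := fun T n hT => by
    rw [← map_prod, ← map_pow]
    refine (ClassGroup.mk0_eq_one_iff ((∏ σ ∈ T, a σ) ^ n).2).2 ?_
    rw [SubmonoidClass.coe_pow, SubmonoidClass.coe_finsetProd]
    exact hT
  have hI : (I.1 ^ p).IsPrincipal := (ClassGroup.mk0_eq_one_iff (I ^ p).2).1 (by
    change ClassGroup.mk0 (I ^ p) = 1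
    rw [map_pow, ← hx, pow_orderOf_eq_one])
  have hp1 : ∀ σ, ClassGroup.mk0 (a σ) ^ p = 1 := fun σ => by
    have := key {σ} p (by rw [prod_singleton, ← Ideal.map_pow]; exact hI.map_ringHom _)
    rwa [prod_singleton] at this
  have hall : ∏ σ, ClassGroup.mk0 (a σ) = 1 := by
    have := key univ _ (nrm hNRM ℚ K I.1)
    rwa [Rat.classNumber_eq, pow_one] at this
  have hH : ∀ S : Finset (Fin t),
      ∏ σ ∈ univ.filter fun σ => ∑ i ∈ S, (E σ).toAdd i = 0, ClassGroup.mk0 (a σ) = 1 := by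
    intro S
    rcases S.eq_empty_or_nonempty with rfl | hne
    · simpa using hall
    obtain ⟨e, g, h1, h2, h3⟩ := hS S hne
    let ψ : (K ≃ₐ[ℚ] K) →* Multiplicative (ZMod 2) :=
      { toFun := fun σ => Multiplicative.ofAdd (∑ i ∈ S, (E σ).toAdd i)
        map_one' := by simp
        map_mul' := fun σ τ => by simp [sum_add_distrib] }
    have hψ : Function.Surjective ψ := fun y => by
      obtain ⟨i, hi⟩ := hne
      refine ⟨E.symm (Multiplicative.ofAdd (Pi.single i y.toAdd)), ?_⟩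
      change Multiplicative.ofAdd (∑ j ∈ S, (E (E.symm _)).toAdd j) = y
      rw [E.apply_symm_apply, toAdd_ofAdd, sum_pi_single', if_pos hi, ofAdd_toAdd]
    have hi : ψ.ker.index = 2 := by
      rw [Subgroup.index_ker, MonoidHom.range_eq_top.2 hψ, Subgroup.card_top]
      simp
    have hk : Module.finrank ℚ (IntermediateField.fixedField ψ.ker) = 2 := by
      have k1 := Module.finrank_mul_finrank ℚ (IntermediateField.fixedField ψ.ker) K
      rw [IntermediateField.finrank_fixedField_eq_card, ← IsGalois.card_aut_eq_finrank ℚ K,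
        ← ψ.ker.index_mul_card, hi] at k1
      exact Nat.eq_of_mul_eq_mul_right Nat.card_pos k1
    have hr : (∏ i ∈ S, (r i : K)) ^ 2 = ((∏ i ∈ S, d i : ℤ) : K) := by
      rw [← prod_pow, Int.cast_prod]
      exact prod_congr rfl fun i _ => by
        simpa using congrArg (algebraMap (𝓞 K) K) (h.sq i)
    have hd : ((∏ i ∈ S, d i : ℤ) : K) ≠ 0 :=
      Int.cast_ne_zero.2 (prod_ne_zero_iff.2 fun i _ => h.ne i)
    have hw : ((g : K) / ∏ i ∈ S, (r i : K)) ^ 2 = e := by
      rw [div_pow, hr, div_eq_iff hd]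
      exact_mod_cast h1.symm
    have hm : (g : K) / ∏ i ∈ S, (r i : K) ∈ IntermediateField.fixedField ψ.ker := by
      rw [IntermediateField.mem_fixedField_iff]
      intro σ hσ
      have k1 : ∑ i ∈ S, (E σ).toAdd i = 0 := hσ
      have k2 := sg_sum (fun i => (E σ).toAdd i) S
      rw [k1, ZMod.val_zero, pow_zero] at k2
      have k3 : ∏ i ∈ S, (-1 : K) ^ ((E σ).toAdd i).val = 1 := by exact_mod_cast k2
      rw [map_div₀, map_intCast, map_prod, prod_congr rfl fun i _ => hE σ i, prod_mul_distrib, k3,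
        one_mul]
    have hw' : (⟨_, hm⟩ : IntermediateField.fixedField ψ.ker) ^ 2 = e := Subtype.ext (by
      simpa using hw)
    have hint : IsIntegral ℤ (⟨_, hm⟩ : IntermediateField.fixedField ψ.ker) :=
      IsIntegral.of_pow two_pos (by rw [hw']; exact isIntegral_algebraMap)
    have h4 := h3 _ ⟨_, hint⟩ hk (by ext1; exact hw')
    have h5 := sub hNRM ψ.ker I.1 (univ.filter fun σ => ∑ i ∈ S, (E σ).toAdd i = 0)
      fun σ => by rw [mem_filter, and_iff_right (mem_univ σ)]; exact Iff.rfl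
    refine one_of ((Nat.Prime.coprime_iff_not_dvd hp).2 h4) ?_ (key _ _ h5)
    rw [← prod_pow]
    exact prod_eq_one fun σ _ => hp1 σ
  have h5 : ∏ σ, ClassGroup.mk0 (a σ) ^ (2 ^ t + if (E σ).toAdd = 0 then 2 ^ t else 0) = 1 := by
    have k1 : ∏ S : Finset (Fin t), ∏ σ ∈ univ.filter fun σ => ∑ i ∈ S, (E σ).toAdd i = 0,
        ClassGroup.mk0 (a σ) = 1 := prod_eq_one fun S _ => hH S
    simp only [prod_filter] at k1
    rw [prod_comm] at k1
    simp only [← prod_filter, prod_const] at k1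
    simp only [← cnt, mul_comm 2, pow_mul]
    rw [prod_pow, k1, one_pow]
  have h6 : ClassGroup.mk0 (a 1) ^ 2 ^ t = 1 := by
    simp only [pow_add] at h5
    rw [prod_mul_distrib, prod_pow, hall, one_pow, one_mul, prod_eq_single 1] at h5
    · simpa using h5
    · intro σ _ hσ
      rw [if_neg, pow_zero]
      exact fun e => hσ (E.injective (by rw [map_one]; exact e))
    · simp
  have h7 := one_of (((Nat.coprime_primes hp Nat.prime_two).2 hp2).pow_right t) (hp1 1) h6
  have h8 : a 1 = I := Subtype.ext (Ideal.map_id I.1)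
  rw [h8] at h7
  rw [h7, orderOf_one] at hx
  exact hp.one_lt.ne hx

end Pool.Agent.P.MP_657a03_nt.G3
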