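import Pool.Agent.P.MP_657a03_nt.G3.Iface

/-! Step DP. -/

set_option autoImplicit false

namespace Pool.Agent.P.MP_657a03_nt.G3

open NumberField Polynomial Finset
open scoped Classical
open Pool.Agent.P.MP_657a03_nt.G5

namespace DPc

lemma ev2 (T : ℤ) (n : ℕ) : (U (n + 2)).eval T = T * (U (n + 1)).eval T - (U n).eval T := by
  simp [U]

lemma dv2 (T : ℤ) (n : ℕ) : (dickson 1 (1 : ℤ) (n + 2)).eval T =
    T * (dickson 1 (1 : ℤ) (n + 1)).eval T - (dickson 1 (1 : ℤ) n).eval T := by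
  simp [dickson_add_two]

lemma DU (T : ℤ) : ∀ n : ℕ,
    (dickson 1 (1 : ℤ) (n + 1)).eval T = (U (n + 2)).eval T - (U n).eval T
  | 0 => by simp [U]
  | 1 => by rw [dv2, ev2, ev2]; simp [U]; ring
  | n + 2 => by
    rw [dv2, DU T (n + 1), DU T n, ev2 T (n + 2), ev2 T n]; ring

lemma quad (T : ℤ) : ∀ n : ℕ, (U (n + 1)).eval T ^ 2 - T * (U (n + 1)).eval T * (U n).eval T +
    (U n).eval T ^ 2 = 1
  | 0 => by simp [U]
  | n + 1 => by rw [ev2]; linear_combination quad T n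

lemma neg (T : ℤ) : ∀ n : ℕ,
    (dickson 1 (1 : ℤ) n).eval (-T) = (-1) ^ n * (dickson 1 (1 : ℤ) n).eval T
  | 0 => by simp
  | 1 => by simp
  | n + 2 => by rw [dv2, dv2, neg T (n + 1), neg T n]; ring

lemma cast_ev (p : ℕ) (f : ℤ[X]) (T : ℤ) :
    ((f.eval T : ℤ) : ZMod p) = (f.map (Int.castRingHom (ZMod p))).eval (T : ZMod p) := by
  simp

lemma mapD (p : ℕ) [Fact p.Prime] :
    (dickson 1 (1 : ℤ) p).map (Int.castRingHom (ZMod p)) = X ^ p := by
  rw [map_dickson, map_one, dickson_one_one_zmod_p]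

end DPc

open DPc in
theorem p_DP (hLUC : G5.S_LUC) :
    S_DP := by
  intro p T hp h2
  have := Fact.mk hp
  have hodd := hp.odd_of_ne_two h2
  refine ⟨fun hT hU => ?_, fun h => ⟨?_, ?_⟩⟩
  · obtain ⟨n, hn⟩ : ∃ n, p ^ 2 = n + 2 := 
      ⟨p ^ 2 - 2, (Nat.sub_add_cancel (by nlinarith [hp.two_le])).symm⟩
    have h1 := (hLUC p T hp h2 hT).2.1
    rw [hn] at hU h1
    change _ ∣ (U (n + 1)).eval T at hU
    change _ ∣ (U n).eval T + 1 at h1
    have pp : Prime (p : ℤ) := Nat.prime_iff_prime_int.1 hp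
    have h3 : ¬ (p : ℤ) ∣ (U n).eval T - 1 := fun h => by
      have : (p : ℤ) ∣ (2 : ℕ) := by
        have := dvd_sub h1 h
        rwa [show (U n).eval T + 1 - ((U n).eval T - 1) = (2 : ℕ) by push_cast; ring] at this
      exact h2 ((Nat.prime_dvd_prime_iff_eq hp Nat.prime_two).1 (Int.natCast_dvd_natCast.1 this))
    have h4 : (p : ℤ) ^ 2 ∣ (U n).eval T + 1 := by
      refine pp.pow_dvd_of_dvd_mul_left 2 h3 ?_
      have e : ((U n).eval T - 1) * ((U n).eval T + 1) =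
          (U (n + 1)).eval T * (T * (U n).eval T - (U (n + 1)).eval T) := by
        linear_combination quad T n
      rw [e]
      exact hU.mul_right _
    have h5 : (p : ℤ) ^ 2 ∣ (dickson 1 (1 : ℤ) (p * p)).eval T - T := by
      rw [← sq, hn, DU T (n + 1), ev2 T (n + 1), ev2 T n]
      have e : T * (T * (U (n + 1)).eval T - (U n).eval T) - (U (n + 1)).eval T -
          (U (n + 1)).eval T - T = (T ^ 2 - 2) * (U (n + 1)).eval T - T * ((U n).eval T + 1) := by
        ring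
      rw [e]
      exact dvd_sub (hU.mul_left _) (h4.mul_left _)
    obtain ⟨k, hk⟩ : (p : ℤ) ∣ (dickson 1 (1 : ℤ) p).eval T - T := by
      rw [← ZMod.intCast_zmod_eq_zero_iff_dvd, Int.cast_sub, cast_ev, mapD]
      simp
    obtain ⟨j, hj⟩ : (p : ℤ) ∣ (derivative (dickson 1 (1 : ℤ) p)).eval T := by
      rw [← ZMod.intCast_zmod_eq_zero_iff_dvd, cast_ev, ← derivative_map, mapD, derivative_X_pow,
        ZMod.natCast_self, C_0, zero_mul, eval_zero]
    obtain ⟨c, hc⟩ := binomExpansion (dickson 1 (1 : ℤ) p) T (p * k)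
    rw [dickson_one_one_mul, eval_comp, show (dickson 1 (1 : ℤ) p).eval T = T + p * k by
      linear_combination hk, hc, hj] at h5
    obtain ⟨i, hi⟩ := h5
    exact ⟨i - j * k - c * k ^ 2, by linear_combination hi⟩
  · unfold W at h ⊢
    rw [neg, hodd.neg_one_pow]
    exact (show -1 * (dickson 1 (1 : ℤ) p).eval T - -T = -((dickson 1 (1 : ℤ) p).eval T - T) by
      ring) ▸ h.neg_right
  · unfold W at h ⊢
    have e : ∀ x : ℤ, (dickson 1 (1 : ℤ) 2).eval x = x ^ 2 - 2 := fun x => by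
      rw [dv2]; simp; ring
    have := congrArg (eval T) (dickson_one_one_comp_comm ℤ p 2)
    rw [eval_comp, eval_comp, e, e] at this
    rw [this]
    exact (show ((dickson 1 (1 : ℤ) p).eval T - T) * ((dickson 1 (1 : ℤ) p).eval T + T) =
      (dickson 1 (1 : ℤ) p).eval T ^ 2 - 2 - (T ^ 2 - 2) by ring) ▸ h.mul_right _

end Pool.Agent.P.MP_657a03_nt.G3
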