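import Pool.Agent.P.MP_657a03_nt.G3.Iface

/-! Step HBL. -/

set_option autoImplicit false

namespace Pool.Agent.P.MP_657a03_nt.G3

open NumberField Polynomial Finset
open scoped Classical
open Pool.Agent.P.MP_657a03_nt.G5

namespace HBLc

variable {F : Type} [Field F]

theorem coeff_op (Q : F[X]) (d : F) (i : ℕ) :
    (X * derivative Q - C d * Q).coeff i = (i - d) * Q.coeff i := by
  rw [coeff_sub, coeff_C_mul]
  cases i with
  | zero => simp
  | succ i => rw [coeff_X_mul, coeff_derivative]; push_cast; ring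

theorem op_sum (l : F[X]) (c d : F) (B : ℕ) (Q : ℕ → F[X]) :
    ∑ j ∈ range (B + 1), (X * derivative (Q j) - C d * Q j +
      if j < B then C (((j + 1 : ℕ) : F) * c) * Q (j + 1) else 0) * l ^ j =
    X * derivative (∑ j ∈ range (B + 1), Q j * l ^ j) - C d * ∑ j ∈ range (B + 1), Q j * l ^ j -
      (X * derivative l - C c) * ∑ j ∈ range B, C ((j + 1 : ℕ) : F) * Q (j + 1) * l ^ j := by
  have h1 : ∑ j ∈ range (B + 1), (if j < B then C (((j + 1 : ℕ) : F) * c) * Q (j + 1) else 0) *
      l ^ j = C c * ∑ j ∈ range B, C ((j + 1 : ℕ) : F) * Q (j + 1) * l ^ j := by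
    rw [sum_range_succ, if_neg (lt_irrefl _), zero_mul, add_zero, mul_sum]
    exact sum_congr rfl fun j hj => by rw [if_pos (mem_range.1 hj), C_mul]; ring
  have h2 : ∑ j ∈ range (B + 1), Q j * derivative (l ^ j) =
      derivative l * ∑ j ∈ range B, C ((j + 1 : ℕ) : F) * Q (j + 1) * l ^ j := by
    rw [sum_range_succ', pow_zero, derivative_one, mul_zero, add_zero, mul_sum]
    exact sum_congr rfl fun j _ => by rw [derivative_pow, Nat.add_sub_cancel]; ring
  simp only [add_mul, sum_add_distrib, h1, derivative_sum, derivative_mul, h2, sub_mul,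
    sum_sub_distrib, mul_assoc, ← mul_sum]
  ring

theorem step {p : ℕ} [Fact p.Prime] {l : (ZMod p)[X]} {c : ZMod p} {n B : ℕ} (hc : c ≠ 0)
    (hl : (X - 1) ^ (p - 1) ∣ X * derivative l - C c)
    (ih : ∀ Q : ℕ → (ZMod p)[X], (∀ j, (Q j).degree < n) →
      (X - 1) ^ (n * (B + 1)) ∣ ∑ j ∈ range (B + 1), Q j * l ^ j → ∀ j < B + 1, Q j = 0)
    (hp : n * (B + 2) < p) (d : ℕ) : d ≤ n → ∀ Q : ℕ → (ZMod p)[X], (∀ j, (Q j).degree < n) →
      (Q (B + 1)).degree < d → (X - 1) ^ (n * (B + 1) + d) ∣ ∑ j ∈ range (B + 2), Q j * l ^ j →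
      ∀ j < B + 2, Q j = 0 := by
  induction d with
  | zero =>
    intro _ Q h1 h2 h3 j hj
    have h0 : Q (B + 1) = 0 := by simpa using h2
    rw [add_zero, sum_range_succ, h0, zero_mul, add_zero] at h3
    rcases Nat.lt_succ_iff_lt_or_eq.1 hj with h | rfl
    · exact ih Q h1 h3 j h
    · exact h0
  | succ d ihd =>
    intro hd Q h1 h2 h3
    refine ihd (by omega) Q h1 ?_ ((pow_dvd_pow _ (by omega)).trans h3)
    have h4 := ihd (by omega) (fun j => X * derivative (Q j) - C (d : ZMod p) * Q j +
      if j < B + 1 then C (((j + 1 : ℕ) : ZMod p) * c) * Q (j + 1) else 0) (fun j => ?_) ?_ ?_ B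
      (by omega)
    · have h5 := congrArg (coeff · d) h4
      simp only [if_pos (Nat.lt_succ_self B), coeff_add, coeff_op, sub_self, zero_mul, zero_add,
        coeff_C_mul, coeff_zero, mul_eq_zero, hc, or_false, ZMod.natCast_eq_zero_iff] at h5
      have h6 := h5.resolve_left (Nat.not_dvd_of_pos_of_lt (by omega) (by nlinarith))
      rw [degree_lt_iff_coeff_zero] at h2 ⊢
      intro m hm
      rcases hm.eq_or_lt with rfl | h
      · exact h6
      · exact h2 m h
    · rw [degree_lt_iff_coeff_zero]
      intro m hm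
      have := fun j => (degree_lt_iff_coeff_zero _ _).1 (h1 j) m hm
      rw [coeff_add, coeff_op, this]
      split_ifs <;> simp [this, -map_mul]
    · rw [degree_lt_iff_coeff_zero] at h2 ⊢
      intro m hm
      rw [if_neg (lt_irrefl _), add_zero, coeff_op]
      rcases hm.eq_or_lt with rfl | h
      · simp
      · rw [h2 m h, mul_zero]
    · rw [op_sum]
      refine dvd_sub (dvd_sub (Dvd.dvd.mul_left ?_ _)
        (((pow_dvd_pow _ (by omega)).trans h3).mul_left _))
        (((pow_dvd_pow _ (by have : n * (B + 2) = n * (B + 1) + n := by ring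
                             omega)).trans hl).mul_right _)
      exact pow_sub_one_dvd_derivative_of_pow_dvd h3

end HBLc

theorem p_HBL :
    S_HBL := by
  intro p _ l c n B Q hc hl hQ hp
  induction B generalizing Q with
  | zero => intro _ j hj; omega
  | succ B ih =>
    cases B with
    | zero =>
      intro h j hj
      obtain rfl : j = 0 := by omega
      simp only [zero_add, mul_one, range_one, sum_singleton, pow_zero] at h
      refine eq_zero_of_dvd_of_degree_lt h ?_
      rw [← C_1, degree_pow, degree_X_sub_C]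
      simpa using hQ 0
    | succ B =>
      exact HBLc.step hc hl (fun Q h1 => ih Q h1 (by nlinarith)) hp n le_rfl Q hQ (hQ _)

end Pool.Agent.P.MP_657a03_nt.G3
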