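import Pool.Agent.P.MP_657a03_nt.G3.Iface

/-! Step IDL. -/

set_option autoImplicit false

namespace Pool.Agent.P.MP_657a03_nt.G3

open NumberField Polynomial Finset
open scoped Classical
open Pool.Agent.P.MP_657a03_nt.G5

namespace IDLc

variable {k : Type} [Field k] [NumberField k]

/-- nonzero ideals all of whose prime factors lie in a class -/
def Good (C : Ideal (𝓞 k) → Prop) (I : Ideal (𝓞 k)) : Prop :=
  I ≠ 0 ∧ ∀ P, Prime P → P ∣ I → C P

/-- classes with at most one prime above each rational prime -/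
def Thin (C : Ideal (𝓞 k) → Prop) : Prop :=
  ∀ (p : ℕ) (P Q : Ideal (𝓞 k)), p.Prime → P.IsMaximal → Q.IsMaximal →
    P.under ℤ = .span {(p : ℤ)} → Q.under ℤ = .span {(p : ℤ)} → C P → C Q → P = Q

theorem prime_max {P : Ideal (𝓞 k)} (h : P.IsMaximal) : Prime P :=
  Ideal.prime_of_isPrime (Ring.ne_bot_of_isMaximal_of_not_isField h
    (RingOfIntegers.not_isField k)) h.isPrime

theorem uniq {C : Ideal (𝓞 k) → Prop} (hC : Thin C) (I : Ideal (𝓞 k)) :
    ∀ J, Good C I → Good C J → Ideal.absNorm I = Ideal.absNorm J → I = J := by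
  induction I using UniqueFactorizationMonoid.induction_on_prime with
  | h₁ => exact fun _ h => absurd rfl h.1
  | h₂ I hI =>
    intro J _ _ e
    rw [Ideal.isUnit_iff] at hI
    subst hI
    rw [Ideal.absNorm_top] at e
    exact (Ideal.absNorm_eq_one_iff.1 e.symm).symm
  | h₃ I P h0 hP ih =>
    intro J hI hJ e
    have h1 : Ideal.absNorm P ≠ 1 := fun h =>
      hP.not_isUnit (Ideal.isUnit_iff.2 (Ideal.absNorm_eq_one_iff.1 h))
    obtain ⟨p, pp, hp⟩ := Nat.exists_prime_and_dvd h1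
    obtain ⟨Q, q1, q2, q3⟩ := Ideal.exists_isMaximal_dvd_of_dvd_absNorm' pp P hp
    obtain ⟨R, r1, r2, J', rfl⟩ := Ideal.exists_isMaximal_dvd_of_dvd_absNorm' pp J
      (by rw [← e, map_mul]; exact hp.mul_right _)
    obtain rfl : Q = P := (prime_dvd_prime_iff_eq (prime_max q1) hP).1 q3
    obtain rfl : Q = R := hC p Q R pp q1 r1 q2 r2 (hI.2 Q hP (dvd_mul_right _ _))
      (hJ.2 R (prime_max r1) (dvd_mul_right _ _))
    rw [map_mul, map_mul] at e
    rw [ih J' ⟨h0, fun S a b => hI.2 S a (b.mul_left _)⟩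
      ⟨right_ne_zero_of_mul hJ.1, fun S a b => hJ.2 S a (b.mul_left _)⟩
      (mul_left_cancel₀ (fun h => hP.ne_zero (Ideal.absNorm_eq_zero_iff.1 h)) e)]

theorem Good.mul {C : Ideal (𝓞 k) → Prop} {P I : Ideal (𝓞 k)} (hP : Prime P) (h : C P)
    (hI : Good C I) : Good C (P * I) :=
  ⟨mul_ne_zero hP.ne_zero hI.1, fun Q a b => (a.dvd_or_dvd b).elim
    (fun c => (prime_dvd_prime_iff_eq a hP).1 c ▸ h) (hI.2 Q a)⟩

theorem split (C : Ideal (𝓞 k) → Prop) (I : Ideal (𝓞 k)) :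
    I ≠ 0 → ∃ A B, I = A * B ∧ Good C A ∧ Good (fun P => ¬ C P) B := by
  induction I using UniqueFactorizationMonoid.induction_on_prime with
  | h₁ => exact fun h => absurd rfl h
  | h₂ I hI =>
    exact fun h => ⟨I, 1, (mul_one I).symm,
      ⟨h, fun P a b => absurd (isUnit_of_dvd_unit b hI) a.not_isUnit⟩,
      one_ne_zero, fun P a b => absurd (isUnit_of_dvd_one b) a.not_isUnit⟩
  | h₃ I P h0 hP ih =>
    intro _
    obtain ⟨A, B, rfl, a, b⟩ := ih h0
    by_cases h : C P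
    · exact ⟨P * A, B, (mul_assoc _ _ _).symm, a.mul hP h, b⟩
    · exact ⟨A, P * B, mul_left_comm _ _ _, a, b.mul hP h⟩

theorem col (hk : Module.finrank ℚ k = 2) :
    ∃ C : Ideal (𝓞 k) → Prop, Thin C ∧ Thin fun P => ¬ C P := by
  refine ⟨fun P => P = Classical.epsilon fun Q : Ideal (𝓞 k) =>
    Q ∈ (P.under ℤ).primesOver (𝓞 k), fun p P Q _ _ _ a b c d => ?_,
    fun p P Q pp hP hQ a b c d => ?_⟩
  · rw [c, d, a, b]
  by_contra ne
  have hp : Prime (p : ℤ) := Nat.prime_iff_prime_int.1 pp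
  have h0 : Ideal.span {(p : ℤ)} ≠ ⊥ := by simpa using pp.ne_zero
  have : (Ideal.span {(p : ℤ)}).IsMaximal :=
    ((Ideal.span_singleton_prime hp.ne_zero).2 hp).isMaximal h0
  have h2 := Ideal.card_primesOverFinset_le_finrank (𝓞 k) ℚ k h0
  beta_reduce at c d
  rw [a] at c
  rw [b] at d
  have mP : P ∈ (Ideal.span {(p : ℤ)}).primesOver (𝓞 k) := ⟨hP.isPrime, ⟨a.symm⟩⟩
  have mQ : Q ∈ (Ideal.span {(p : ℤ)}).primesOver (𝓞 k) := ⟨hQ.isPrime, ⟨b.symm⟩⟩
  have mR := Classical.epsilon_spec (p := fun Q : Ideal (𝓞 k) =>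
    Q ∈ (Ideal.span {(p : ℤ)}).primesOver (𝓞 k)) ⟨P, mP⟩
  rw [← IsDedekindDomain.mem_primesOverFinset_iff h0] at mP mQ mR
  have := two_lt_card_iff.2 ⟨_, _, _, mP, mQ, mR, ne, c, d⟩
  omega

theorem count (M : ℕ) :
    ((((Icc 1 M).sigma fun a => Icc 1 (M / a)).card : ℕ) : ℝ) ≤ M * (1 + Real.log M) := by
  refine le_trans ?_ (mul_le_mul_of_nonneg_left (harmonic_le_one_add_log M) (Nat.cast_nonneg M))
  simp only [harmonic_eq_sum_Icc, Rat.cast_sum, Rat.cast_inv, Rat.cast_natCast, card_sigma,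
    Nat.card_Icc, Nat.add_sub_cancel, Nat.cast_sum, mul_sum]
  exact sum_le_sum fun a _ => Nat.cast_div_le

end IDLc

open IDLc in
theorem p_IDL :
    S_IDL := by
  intro k _ _ M hk
  obtain ⟨C, h1, h2⟩ := col hk
  choose! A B e a b using split C
  refine le_trans (Nat.cast_le.2 ?_) (count M)
  rw [← Set.ncard_coe_finset]
  refine Set.ncard_le_ncard_of_injOn
    (fun I => (⟨Ideal.absNorm (A I), Ideal.absNorm (B I)⟩ : Σ _ : ℕ, ℕ)) (fun I hI => ?_)
    (fun I hI J hJ h => ?_) (finite_toSet _)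
  · have p1 : 0 < Ideal.absNorm (A I) :=
      Nat.pos_of_ne_zero fun h => (a I hI.1).1 (Ideal.absNorm_eq_zero_iff.1 h)
    have p2 : 0 < Ideal.absNorm (B I) :=
      Nat.pos_of_ne_zero fun h => (b I hI.1).1 (Ideal.absNorm_eq_zero_iff.1 h)
    have h3 := hI.2
    rw [e I hI.1, map_mul] at h3
    simp only [mem_coe, mem_sigma, mem_Icc]
    exact ⟨⟨p1, (Nat.le_mul_of_pos_right _ p2).trans h3⟩, p2,
      (Nat.le_div_iff_mul_le p1).2 (by rwa [mul_comm])⟩
  · simp only [Sigma.mk.injEq, heq_eq_eq] at h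
    rw [e I hI.1, e J hJ.1, uniq h1 _ _ (a I hI.1) (a J hJ.1) h.1,
      uniq h2 _ _ (b I hI.1) (b J hJ.1) h.2]

end Pool.Agent.P.MP_657a03_nt.G3
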