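import Pool.Agent.P.MP_657a03_nt.G3.Iface

/-! Step LOG. -/

set_option autoImplicit false

namespace Pool.Agent.P.MP_657a03_nt.G3

open NumberField Polynomial Finset
open scoped Classical
open Pool.Agent.P.MP_657a03_nt.G5

namespace LOGc

theorem alg {R : Type} [CommRing R] {x U U' w w' N N' n1 n2 G e t1 t2 : R} (r1 : U * w = 1)
    (r2 : U' * w + U * w' = 0) (r3 : U ^ 2 * N * G = -e * (t1 - t2)) (r4 : t1 * (U * n1) = 1)
    (r4' : t2 * (U * n2) = 1) (r5 : x * (N' * w - 2 * N * w') * (n2 - n1) = 2 * n1 * n2 * N) :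
    (x * (G * (2 * U * U' * N + U ^ 2 * N')) + 2 * e) * (N * n1 * n2) = 0 := by
  have h1 : U' = -(U ^ 2 * w') := by linear_combination U * r2 - U' * r1
  have h2 : U ^ 3 * (N * G * n1 * n2) = -e * (n2 - n1) := by
    have : U * (U ^ 3 * (N * G * n1 * n2) + e * (n2 - n1)) = 0 := by
      linear_combination U ^ 2 * n1 * n2 * r3 - e * U * n2 * r4 + e * U * n1 * r4'
    linear_combination w * this - (U ^ 3 * (N * G * n1 * n2) + e * (n2 - n1)) * r1
  rw [h1]
  linear_combination x * (N' * w - 2 * N * w') * h2 - e * r5 -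
    x * G * U ^ 2 * N' * N * n1 * n2 * r1

theorem pow_p {p : ℕ} [Fact p.Prime] (f : (ZMod p)[X]) (h : f.eval 1 = 1) :
    (X - 1) ^ p ∣ f ^ p - 1 := by
  have h1 : X - 1 ∣ f - 1 := by
    rw [← C_1, dvd_iff_isRoot]; simp [h]
  simpa only [sub_pow_char, one_pow] using pow_dvd_pow_of_dvd h1 p

theorem cop {F : Type} [Field F] {f : F[X]} (h : f.eval 1 ≠ 0) : IsCoprime (X - 1) f := by
  rw [← C_1]
  exact (irreducible_X_sub_C 1).coprime_iff_not_dvd.2 (by rwa [dvd_iff_isRoot])

end LOGc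

theorem p_LOG :
    S_LOG := by
  intro p hp a b H hp2 ha hb hab hH
  have hd : a - b ≠ 0 := sub_ne_zero.2 hab
  obtain ⟨k, u, hu⟩ := (LOGc.cop (f := wz a b) (by simpa [wz] using hd)).pow_left (m := p)
  have hu1 : u.eval 1 * (a - b) = 1 := by
    simpa [wz, hp.out.ne_zero] using congrArg (eval 1) hu
  refine ⟨u ^ 2 * Nz a b, ⟨-(k * (u * wz a b + 1) * Nz a b), by
    linear_combination (u * wz a b + 1) * Nz a b * hu⟩, ?_⟩
  let π := Ideal.Quotient.mk (Ideal.span {((X - 1) ^ p : (ZMod p)[X])})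
  have hπ : ∀ f g, π f = π g ↔ (X - 1) ^ p ∣ f - g := fun f g => by
    rw [Ideal.Quotient.eq, Ideal.mem_span_singleton]
  have hM : π ((X - 1) ^ p) = 0 := by rw [← map_zero π, hπ, sub_zero]
  set n1 : (ZMod p)[X] := C a - 2 * C b * X + C b * X ^ 2 with hn1
  set n2 : (ZMod p)[X] := -C a + 2 * C a * X - C b * X ^ 2 with hn2
  have e1 : n1.eval 1 = a - b := by simp [hn1]; ring
  have e2 : n2.eval 1 = a - b := by simp [hn2]; ring
  obtain ⟨m, hm⟩ := hp.out.odd_of_ne_two hp2
  have hm2 : p / 2 = m := by omega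
  have r1 : π u * π (wz a b) = 1 := by
    have := congrArg π hu
    rwa [map_add, map_mul, hM, mul_zero, zero_add, map_mul, map_one] at this
  have r2 : π (derivative u) * π (wz a b) + π u * π (derivative (wz a b)) = 0 := by
    have := congrArg (fun f => π (derivative f)) hu
    simp only [derivative_add, derivative_mul, derivative_pow, ZMod.natCast_self, C_0, zero_mul,
      mul_zero, add_zero, derivative_one, map_add, map_mul, hM, zero_add, map_zero] at this
    exact this
  have r4 : ∀ n : (ZMod p)[X], n.eval 1 = a - b → (π u * π n) ^ (2 * m) * (π u * π n) = 1 := by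
    intro n hn
    rw [← pow_succ, ← hm, ← map_mul, ← map_pow, ← map_one π, hπ]
    exact LOGc.pow_p _ (by rw [eval_mul, hn, hu1])
  have r6 : ∀ (a' : ZMod p) (n : (ZMod p)[X]), a' ≠ 0 →
      C a' ^ 2 * n ^ 2 = C a' ^ 2 * wz a b ^ 2 + 4 * C a' * Nz a b →
      π ((C (a' ^ 2) + C (4 * a') * (u ^ 2 * Nz a b)) ^ m) = (π u * π n) ^ (2 * m) := by
    intro a' n h0 h
    have h1 := congrArg π h
    have h2 : π (C a') ^ (2 * m) = 1 := by
      rw [← map_pow, ← map_pow, show 2 * m = p - 1 by omega, ZMod.pow_card_sub_one_eq_one h0,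
        map_one, map_one]
    rw [← one_mul ((π u * π n) ^ (2 * m)), ← h2, ← mul_pow, pow_mul, map_pow]
    congr 1
    simp only [map_mul, map_add, map_pow, map_ofNat] at h1 ⊢
    linear_combination -π u ^ 2 * h1 - π (C a') ^ 2 * (π u * π (wz a b) + 1) * r1
  have r3 : π u ^ 2 * π (Nz a b) * π ((derivative H).comp (u ^ 2 * Nz a b)) =
      -π (C (a * b)) * ((π u * π n1) ^ (2 * m) - (π u * π n2) ^ (2 * m)) := by
    have := congrArg (fun f => π (f.comp (u ^ 2 * Nz a b))) hH
    simp only [mul_comp, X_comp, neg_comp, C_comp, sub_comp, pow_comp, add_comp, hm2] at this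
    rw [map_mul π (-_), map_sub, r6 a n1 ha, r6 b n2 hb, map_neg, map_mul, map_mul, map_pow] at this
    · exact this
    · simp only [hn2, wz, Nz, C_mul]; ring
    · simp only [hn1, wz, Nz, C_mul]; ring
  have r5 : X * (derivative (Nz a b) * wz a b - 2 * Nz a b * derivative (wz a b)) * (n2 - n1) =
      2 * n1 * n2 * Nz a b := by
    simp only [hn1, hn2, wz, Nz, C_mul, derivative_mul, derivative_sub, derivative_C, derivative_X,
      derivative_one, derivative_X_sq, map_ofNat]
    ring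
  have r5' := congrArg π r5
  simp only [map_mul, map_sub, map_ofNat] at r5'
  have key := LOGc.alg r1 r2 r3 (r4 n1 e1) (r4 n2 e2) r5'
  have h7 : (X - 1) ^ p ∣ (X * derivative (H.comp (u ^ 2 * Nz a b)) - C (-2 * a * b)) *
      (Nz a b * n1 * n2) := by
    rw [← sub_zero (_ * _), ← hπ, map_zero, ← key, derivative_comp, derivative_mul, derivative_sq]
    simp only [map_mul, map_sub, map_add, map_pow, map_neg, map_ofNat]
    ring
  have h8 : (X - 1) ^ (p - 1) * (X - 1) ∣ (X * derivative (H.comp (u ^ 2 * Nz a b)) -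
      C (-2 * a * b)) * (C (a * b) * X * (C a - C b * X) * n1 * n2) * (X - 1) := by
    rw [← pow_succ, Nat.sub_add_cancel hp.out.one_le]
    refine h7.trans (dvd_of_eq ?_)
    rw [Nz]; ring
  refine ((LOGc.cop ?_).pow_left).dvd_of_dvd_mul_right
    ((mul_dvd_mul_iff_right (X_sub_C_ne_zero 1)).1 h8)
  simp [e1, e2, ha, hb, hd]

end Pool.Agent.P.MP_657a03_nt.G3
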