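import Pool.Agent.P.MP_657a03_nt.G3.Iface

/-! Step MAIN. -/

set_option autoImplicit false

namespace Pool.Agent.P.MP_657a03_nt.G3

open NumberField Polynomial Finset
open scoped Classical
open Pool.Agent.P.MP_657a03_nt.G5

namespace MAINc

theorem not_sq {s : ℤ} (hs : 2 < s) : ¬ IsSquare (s ^ 2 - 4) := by
  rintro ⟨k, hk⟩
  have h1 : s ^ 2 - 4 = |k| ^ 2 := by rw [sq_abs, hk, sq]
  have h0 := abs_nonneg k
  rcases le_or_gt s |k| with h2 | h2
  · nlinarith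
  · have : |k| ≤ s - 1 := by omega
    nlinarith

theorem not_sq' {e g D : ℤ} (he : ¬ IsSquare e) (hD : D ≠ 0) (h : e * D = g ^ 2) :
    ¬ IsSquare D := by
  rintro ⟨r, rfl⟩
  have hr : r ≠ 0 := by rintro rfl; simp at hD
  obtain ⟨k, rfl⟩ : r ∣ g := (Int.pow_dvd_pow_iff two_ne_zero).1 ⟨e, by linear_combination -h⟩
  exact he ⟨k, mul_right_cancel₀ (pow_ne_zero 2 hr) (by linear_combination h)⟩

theorem ex_c (n p : ℕ) (h : 8 * n ^ 3 < p) : ∃ c, n ≤ c ∧ 8 * c ^ 3 < p ∧ p ≤ 8 * (c + 1) ^ 3 := by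
  have hb : ∀ c, 8 * c ^ 3 < p → c ≤ p := fun c hc => by
    have := Nat.le_self_pow (n := 3) (by norm_num) c
    omega
  refine ⟨Nat.findGreatest (fun c => 8 * c ^ 3 < p) p, Nat.le_findGreatest (hb n h) h,
    Nat.findGreatest_spec (P := fun c => 8 * c ^ 3 < p) (hb n h) h, not_lt.1 fun h1 => ?_⟩
  have := Nat.le_findGreatest (P := fun c => 8 * c ^ 3 < p) (hb _ h1) h1
  omega

end MAINc

open MAINc in
theorem p_MAIN (hFIELD : G5.S_FIELD) (hSIG : G5.S_SIG) (hRANK : G5.S_RANK) (hETA : G5.S_ETA)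
    (hPICK : S_PICK) (hQH : S_QH) (hDESC : S_DESC) : S_MAIN := by
  obtain ⟨c0, hc0⟩ := hQH
  refine ⟨8 * (4000 + c0 * 81 * (1500 ^ 4 * 64) + 1) ^ 3, fun p hp hP => ?_⟩
  obtain ⟨c, hc1, hc2, hc3⟩ := ex_c _ p hP
  obtain ⟨y, hy5, hy, hs⟩ := hPICK p c hp (by omega) hc2
  have hp2 : p ≠ 2 := by
    have := Nat.le_self_pow (n := 3) (by norm_num) c
    omega
  have hy' : (5 : ℤ) ≤ y := by exact_mod_cast hy5
  let d : Fin 3 → ℤ := ![-1, (2 * y + 2) ^ 2 - 4, (2 * y - 2) ^ 2 - 4]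
  let s : Finset (Fin 3) → ℤ := fun S =>
    if 1 ∈ S then if 2 ∈ S then y else 2 * y + 2 else 2 * y - 2
  let g : Finset (Fin 3) → ℤ := fun S =>
    if 1 ∈ S then if 2 ∈ S then 4 * y * (y ^ 2 - 4) else (2 * y + 2) ^ 2 - 4 else
      (2 * y - 2) ^ 2 - 4
  have hs1 : ∀ S, s S = 2 * y + 2 ∨ s S = 2 * y - 2 ∨ s S = y := fun S => by
    simp only [s]; split_ifs <;> simp
  have hs2 : ∀ S, 2 < s S := fun S => by rcases hs1 S with h | h | h <;> omega
  have hs3 : ∀ S, s S ≤ 3 * y := fun S => by rcases hs1 S with h | h | h <;> omega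
  have hcase : ∀ S : Finset (Fin 3), S.Nonempty → 0 ∉ S → S = {1} ∨ S = {2} ∨ S = {1, 2} := by
    decide
  have hid : ∀ S, S.Nonempty → 0 ∉ S → (s S ^ 2 - 4) * ∏ i ∈ S, d i = g S ^ 2 := fun S h1 h0 => by
    rcases hcase S h1 h0 with rfl | rfl | rfl <;> simp [s, g, d] <;> ring
  have hd : ∀ i, i ≠ 0 → 0 < d i := fun i hi => by
    fin_cases i
    · exact absurd rfl hi
    · simp only [d]; simp; nlinarith
    · simp only [d]; simp; nlinarith
  have hd0 : d 0 = -1 := rfl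
  have hdn : ∀ S : Finset (Fin 3), ∏ i ∈ S, d i ≠ 0 := fun S =>
    Finset.prod_ne_zero_iff.2 fun i _ => by
      by_cases h : i = 0
      · rw [h, hd0]; norm_num
      · exact (hd i h).ne'
  have he : ∀ S : Finset (Fin 3), S.Nonempty → ∃ e g : ℤ, e * ∏ i ∈ S, d i = g ^ 2 ∧
      ¬ IsSquare e ∧ e.natAbs ≤ 9 * y ^ 2 := by
    intro S h1
    have hb : ∀ S, (s S ^ 2 - 4).natAbs ≤ 9 * y ^ 2 := fun S => by
      have := hs2 S
      have := hs3 S
      zify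
      rw [abs_of_nonneg (by nlinarith)]
      nlinarith
    by_cases h0 : 0 ∈ S
    · rw [← Finset.mul_prod_erase _ _ h0, hd0]
      rcases (S.erase 0).eq_empty_or_nonempty with h | h
      · exact ⟨-1, 1, by simp [h], by decide, by simp; nlinarith⟩
      · refine ⟨-(s (S.erase 0) ^ 2 - 4), g (S.erase 0), ?_, fun h => ?_, ?_⟩
        · linear_combination hid _ h (Finset.notMem_erase _ _)
        · have := hs2 (S.erase 0)
          have := h.nonneg
          nlinarith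
        · rw [Int.natAbs_neg]; exact hb _
    · exact ⟨_, _, hid S h1 h0, not_sq (hs2 S), hb S⟩
  have hns : ∀ S : Finset (Fin 3), S.Nonempty → ¬ IsSquare (∏ i ∈ S, d i) := fun S h1 => by
    obtain ⟨e, g, h2, h3, -⟩ := he S h1
    exact not_sq' h3 (hdn S) h2
  choose ρ hρ using fun i : Fin 3 => IsAlgClosed.exists_pow_nat_eq ((d i : ℤ) : ℂ) two_pos
  obtain ⟨K, iF, iN, -, r, hMQ⟩ := hFIELD 3 _ ℂ ρ hρ hns
  have hdp : ∀ i, ¬ (p : ℤ) ∣ d i := fun i => by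
    fin_cases i
    · simpa [d] using (Nat.prime_iff_prime_int.1 hp).not_dvd_one
    · exact (hs _ (Or.inl rfl)).1
    · exact (hs _ (Or.inr (Or.inl rfl))).1
  have hh : ¬ p ∣ classNumber K := hDESC 3 K d r p hMQ hp hp2 fun S h1 => by
    obtain ⟨e, g, h2, h3, h4⟩ := he S h1
    refine ⟨e, g, h2, fun h => h3 (by simp [h]), fun k _ _ w hk hw h => ?_⟩
    have h5 := Nat.pow_le_pow_left (Nat.le_of_dvd (classNumber_pos k) h) 3
    have h6 := (hc0 k w e hk hw h3).trans (Nat.mul_le_mul_left _ (Nat.pow_le_pow_left h4 2))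
    have h7 := Nat.pow_le_pow_left hy 4
    have h8 : p ≤ 64 * c ^ 3 := hc3.trans (by
      have : c + 1 ≤ 2 * c := by omega
      have := Nat.pow_le_pow_left this 3
      nlinarith)
    have h9 : c ^ 3 * (c * y ^ 4) ≤ c ^ 3 * (1500 ^ 4 * 64 * p ^ 3) := by
      calc c ^ 3 * (c * y ^ 4) = (c * y) ^ 4 := by ring
        _ ≤ 1500 ^ 4 * p ^ 3 * p := by rw [mul_assoc, ← pow_succ, ← mul_pow]; exact h7
        _ ≤ 1500 ^ 4 * p ^ 3 * (64 * c ^ 3) := Nat.mul_le_mul_left _ h8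
        _ = _ := by ring
    have h10 := Nat.le_of_mul_le_mul_left h9 (pow_pos (by omega) 3)
    have h11 : c * p ^ 3 ≤ c0 * 81 * (1500 ^ 4 * 64) * p ^ 3 := by
      calc c * p ^ 3 ≤ c * (c0 * (9 * y ^ 2) ^ 2) := Nat.mul_le_mul_left _ (h5.trans h6)
        _ = c0 * 81 * (c * y ^ 4) := by ring
        _ ≤ c0 * 81 * (1500 ^ 4 * 64 * p ^ 3) := Nat.mul_le_mul_left _ h10
        _ = _ := by ring
    have := Nat.le_of_mul_le_mul_right h11 (pow_pos hp.pos 3)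
    omega
  have hS := fun (S : Finset (Fin 3)) (a1 : S.Nonempty) (a0 : 0 ∉ S) =>
    And.intro (hid S a1 a0) (hs _ (hs1 S))
  have hm1 : ∀ S : Finset (Fin 2), S.Nonempty → (S.map (Fin.succEmb 2)).Nonempty :=
    fun S h => h.map
  have hm0 : ∀ S : Finset (Fin 2), 0 ∉ S.map (Fin.succEmb 2) := fun S => by
    simp [Fin.succ_ne_zero]
  obtain ⟨F, jF, jN, f, r', hF⟩ := hFIELD 2 (fun i => d i.succ) K
    (fun i => r i.succ) (fun i => by
      simpa using congrArg (algebraMap (𝓞 K) K) (hMQ.sq i.succ))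
    fun S h => by simpa [Finset.prod_map] using hns _ (hm1 S h)
  have hFR := (hSIG 2 _ _ _ hF).1 fun i => hd _ (Fin.succ_ne_zero i)
  obtain ⟨u, hu1, hu⟩ := hETA 2 F _ r' p (fun S => s (S.map (Fin.succEmb 2)))
    (fun S => g (S.map (Fin.succEmb 2))) hF (by omega) hp hp2
    (fun i => hdp _) (fun S h => by
      simpa [Finset.prod_map] using hS _ (hm1 S h) (hm0 S)) hFR
  have hneg : d 0 < 0 := by rw [hd0]; omega
  exact ⟨K, iF, iN, hMQ.gal, ((hSIG 3 _ _ _ hMQ).2 ⟨0, hneg⟩).1, ⟨hMQ.grp.choose⟩, hh,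
    hRANK 2 K _ r p _ _ hMQ hneg hp hp2 hdp hh hS, F, jF, jN, f, u, hF.gal, hFR, hF.deg, hu1, @hu⟩

end Pool.Agent.P.MP_657a03_nt.G3
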