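import Pool.Agent.P.MP_657a03_nt.G3.Iface

/-! Step NRM. -/

set_option autoImplicit false

namespace Pool.Agent.P.MP_657a03_nt.G3

open NumberField Polynomial Finset
open scoped Classical
open Pool.Agent.P.MP_657a03_nt.G5

namespace NRMc

variable {k K : Type} [Field k] [Field K] [NumberField k] [NumberField K] [Algebra k K]

theorem abs_map (σ : K ≃ₐ[k] K) (I : Ideal (𝓞 K)) :
    Ideal.absNorm (I.map (RingOfIntegers.mapRingHom (σ : K →+* K))) = Ideal.absNorm I := by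
  rw [← Ideal.absNorm_relNorm (𝓞 k), ← Ideal.absNorm_relNorm (𝓞 k) (I := I),
    ← Ideal.relNorm_map_algEquiv (RingOfIntegers.mapAlgEquiv σ) I]
  rfl

theorem nrm [IsGalois k K] (x : 𝓞 K) : algebraMap (𝓞 k) (𝓞 K) (Algebra.intNorm (𝓞 k) (𝓞 K) x) =
    ∏ σ : K ≃ₐ[k] K, RingOfIntegers.mapRingHom (σ : K →+* K) x := by
  apply RingOfIntegers.coe_injective
  rw [map_prod, ← IsScalarTower.algebraMap_apply, IsScalarTower.algebraMap_apply (𝓞 k) k K,
    Algebra.algebraMap_intNorm (L := K), Algebra.norm_eq_prod_automorphisms]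
  rfl

end NRMc

theorem p_NRM :
    S_NRM := by
  intro k K _ _ _ _ _ _ I
  refine ⟨Ideal.relNorm (𝓞 k) I, ?_⟩
  have hle : (Ideal.relNorm (𝓞 k) I).map (algebraMap (𝓞 k) (𝓞 K)) ≤
      ∏ σ : K ≃ₐ[k] K, I.map (RingOfIntegers.mapRingHom (σ : K →+* K)) := by
    rw [Ideal.map_relNorm, Ideal.span_le]
    rintro _ ⟨x, hx, rfl⟩
    rw [Function.comp_apply, NRMc.nrm]
    exact Ideal.prod_mem_prod fun σ _ => Ideal.mem_map_of_mem _ hx
  have hn : Ideal.absNorm ((Ideal.relNorm (𝓞 k) I).map (algebraMap (𝓞 k) (𝓞 K))) =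
      Ideal.absNorm (∏ σ : K ≃ₐ[k] K, I.map (RingOfIntegers.mapRingHom (σ : K →+* K))) := by
    rw [Ideal.absNorm_algebraMap, Ideal.absNorm_relNorm, map_prod]
    simp only [NRMc.abs_map]
    rw [prod_const, card_univ, ← Nat.card_eq_fintype_card, IsGalois.card_aut_eq_finrank,
      IsFractionRing.finrank_eq (𝓞 k) k (𝓞 K) K]
  obtain ⟨C, hC⟩ := Ideal.dvd_iff_le.2 hle
  rw [hC] at hn ⊢
  rw [map_mul] at hn
  by_cases h0 : Ideal.absNorm (∏ σ : K ≃ₐ[k] K, I.map (RingOfIntegers.mapRingHom (σ : K →+* K))) = 0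
  · rw [Ideal.absNorm_eq_zero_iff.1 h0, Ideal.bot_mul]
  · rw [Ideal.absNorm_eq_one_iff.1 ((mul_eq_left₀ h0).1 hn), Ideal.mul_top]

end Pool.Agent.P.MP_657a03_nt.G3
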