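import Pool.Agent.P.MP_657a03_nt.G3.Iface

/-! Step ODE. -/

set_option autoImplicit false

namespace Pool.Agent.P.MP_657a03_nt.G3

open NumberField Polynomial Finset
open scoped Classical
open Pool.Agent.P.MP_657a03_nt.G5

namespace ODEc

theorem U2 (n : ℕ) : U (n + 2) = X * U (n + 1) - U n := rfl

theorem dU (n : ℕ) : dickson 1 (1 : ℤ) (n + 1) = X * U (n + 1) - 2 * U n := by
  induction n using Nat.twoStepInduction with
  | zero => simp [U]
  | one => rw [dickson_two]; simp [U]; ring
  | more n h1 h2 => rw [dickson_add_two, h1, h2, U2 (n + 1), U2 n, C_1]; ring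

theorem der (n : ℕ) : derivative (dickson 1 (1 : ℤ) n) = (n : ℤ[X]) * U n := by
  induction n using Nat.twoStepInduction with
  | zero => simp [U]
  | one => simp [U]
  | more n h1 h2 =>
    rw [dickson_add_two, C_1, one_mul, derivative_sub, derivative_mul, derivative_X, h1, h2, dU, U2]
    push_cast
    ring

theorem cas (n : ℕ) : U (n + 1) ^ 2 - X * U (n + 1) * U n + U n ^ 2 = 1 := by
  induction n with
  | zero => simp [U]
  | succ n ih => rw [U2]; linear_combination ih

theorem mon (n : ℕ) : (U (n + 1)).Monic ∧ (U (n + 1)).natDegree = n ∧ (U n).natDegree ≤ n := by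
  induction n with
  | zero => simp [U]
  | succ n ih =>
    have h1 : (X * U (n + 1)).Monic := monic_X.mul ih.1
    have h2 : (X * U (n + 1)).natDegree = n + 1 := by
      rw [monic_X.natDegree_mul ih.1, natDegree_X, ih.2.1, add_comm]
    have h3 : (U n).natDegree < (X * U (n + 1)).natDegree := by have := ih.2.2; omega
    refine ⟨?_, ?_, by rw [ih.2.1]; omega⟩
    · rw [U2]; exact h1.sub_of_left (degree_lt_degree h3)
    · rw [U2, natDegree_sub_eq_left_of_natDegree_lt h3, h2]

theorem degD (n : ℕ) : (dickson 1 (1 : ℤ) (n + 1)).natDegree ≤ n + 1 := by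
  rw [dU]
  refine (natDegree_sub_le _ _).trans (max_le ?_ ?_)
  · rw [monic_X.natDegree_mul (mon n).1, natDegree_X, (mon n).2.1, add_comm]
  · refine natDegree_mul_le.trans ?_
    have := (mon n).2.2
    rw [natDegree_ofNat]
    omega

theorem mapD (p : ℕ) [Fact p.Prime] :
    (dickson 1 (1 : ℤ) p).map (Int.castRingHom (ZMod p)) = X ^ p := by
  rw [map_dickson, map_one, dickson_one_one_zmod_p]

theorem mapU (p m : ℕ) [Fact p.Prime] (hp : p = 2 * m + 1) :
    (U p).map (Int.castRingHom (ZMod p)) = (X ^ 2 - C 4) ^ m := by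
  have h1 : dickson 1 (1 : ℤ) p ^ 2 - (X ^ 2 - 4) * U p ^ 2 = 4 := by
    rw [hp, dU]; linear_combination 4 * cas (2 * m)
  have h2 := congrArg (Polynomial.map (Int.castRingHom (ZMod p))) h1
  simp only [Polynomial.map_sub, Polynomial.map_mul, Polynomial.map_pow, mapD, map_X,
    Polynomial.map_ofNat] at h2
  have hm : (X ^ 2 - C 4 : (ZMod p)[X]).Monic := monic_X_pow_sub_C 4 two_ne_zero
  have h3 : (X ^ 2 - C 4 : (ZMod p)[X]) ^ p = (X ^ p) ^ 2 - C 4 := by
    rw [sub_pow_char, ← C_pow, ZMod.pow_card, ← pow_mul, ← pow_mul, mul_comm]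
  have h4 : ((U p).map (Int.castRingHom (ZMod p))) ^ 2 = ((X ^ 2 - C 4) ^ m) ^ 2 := by
    refine mul_left_cancel₀ hm.ne_zero ?_
    rw [← pow_mul, ← pow_succ', mul_comm m, ← hp, h3]
    have h5 : (C 4 : (ZMod p)[X]) = 4 := rfl
    rw [h5]
    linear_combination -h2
  rcases sq_eq_sq_iff_eq_or_eq_neg.1 h4 with h | h
  · exact h
  · exfalso
    have h5 : ((U p).map (Int.castRingHom (ZMod p))).Monic := (hp ▸ (mon (2 * m)).1).map _
    have h6 := h5.leadingCoeff
    rw [h, leadingCoeff_neg, (hm.pow m).leadingCoeff] at h6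
    have h7 : ((2 : ℕ) : ZMod p) = 0 := by push_cast; linear_combination -h6
    have h8 := Nat.le_of_dvd two_pos ((ZMod.natCast_eq_zero_iff 2 p).1 h7)
    have h9 := (Fact.out : p.Prime).two_le
    omega

theorem refl_pow {F : Type} [CommRing F] (f : F[X]) (h : f.natDegree ≤ 2) (m : ℕ) :
    reflect (2 * m) (f ^ m) = reflect 2 f ^ m := by
  induction m with
  | zero => simp
  | succ m ih =>
    rw [pow_succ, pow_succ, mul_add, mul_one, reflect_mul _ _ (natDegree_pow_le.trans (by
      rw [mul_comm]; exact Nat.mul_le_mul_right m h)) h, ih]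

theorem refl_q {F : Type} [CommRing F] (a : F) (m : ℕ) :
    reflect (2 * m) (((C a * X + 2) ^ 2 - C 4) ^ m) = (C (a ^ 2) + C (4 * a) * X) ^ m := by
  have h1 : ((C a * X + 2) ^ 2 - C 4 : F[X]) = C (a ^ 2) * X ^ 2 + C (4 * a) * X ^ 1 := by
    have h5 : (C 4 : F[X]) = 4 := rfl
    rw [C_pow, C_mul, h5]; ring
  rw [h1, refl_pow _ (by compute_degree), reflect_add, reflect_C_mul_X_pow, reflect_C_mul_X_pow,
    revAt_le le_rfl, revAt_le (by norm_num)]
  simp

theorem refl_der (p : ℕ) [Fact p.Prime] (E : (ZMod p)[X]) (h : E.natDegree ≤ p) :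
    X * derivative (reflect p E) = -reflect (p - 1) (derivative E) := by
  have hp := (Fact.out : p.Prime).pos
  ext j
  have h1 : (X * derivative (reflect p E)).coeff j = j * E.coeff (revAt p j) := by
    cases j with
    | zero => simp
    | succ j => rw [coeff_X_mul, coeff_derivative, coeff_reflect]; push_cast; ring
  rw [h1, coeff_neg, coeff_reflect, coeff_derivative]
  rcases lt_trichotomy j p with hj | rfl | hj
  · rw [revAt_le hj.le, revAt_le (by omega), show p - 1 - j + 1 = p - j by omega]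
    have h2 : ((p - 1 - j : ℕ) : ZMod p) + 1 + j = 0 := by
      rw [← ZMod.natCast_self p]
      exact_mod_cast congrArg (Nat.cast : ℕ → ZMod p) (show p - 1 - j + 1 + j = p by omega)
    linear_combination E.coeff (p - j) * h2
  · rw [revAt_eq_self_of_lt (show j - 1 < j by omega), ZMod.natCast_self,
      coeff_eq_zero_of_natDegree_lt (show E.natDegree < j + 1 by omega)]
    simp
  · rw [revAt_eq_self_of_lt hj, revAt_eq_self_of_lt (show p - 1 < j by omega),
      coeff_eq_zero_of_natDegree_lt (show E.natDegree < j + 1 by omega),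
      coeff_eq_zero_of_natDegree_lt (show E.natDegree < j by omega)]
    simp

end ODEc

open ODEc in
theorem p_ODE :
    S_ODE := by
  intro p hp a b h2
  obtain ⟨m, hm⟩ := hp.out.odd_of_ne_two h2
  have hp0 : (p : ℤ) ≠ 0 := by exact_mod_cast hp.out.ne_zero
  let D : ℤ[X] := dickson 1 1 p
  let Q : ℤ[X] := C b * (D.comp (C a * X + 2) - 2) - C a * (D.comp (C b * X + 2) - 2)
  have k1 : ∀ c : ℤ, (D.comp (C c * X + 2) - 2).map (Int.castRingHom (ZMod p)) =
      C (c : ZMod p) * X ^ p := fun c => by
    have h5 : (2 : (ZMod p)[X]) = C 2 := rfl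
    simp only [D, Polynomial.map_sub, map_comp, mapD, Polynomial.map_add, Polynomial.map_mul, map_C,
      map_X, Polynomial.map_ofNat, pow_comp, X_comp, Int.coe_castRingHom]
    rw [add_pow_char, mul_pow, h5, ← C_pow, ← C_pow, ZMod.pow_card, ZMod.pow_card]
    ring
  have k2 : Q.map (Int.castRingHom (ZMod p)) = 0 := by
    simp only [Q]
    rw [Polynomial.map_sub, Polynomial.map_mul, Polynomial.map_mul, k1, k1, map_C, map_C,
      eq_intCast, eq_intCast]
    ring
  obtain ⟨E, hE⟩ : C (p : ℤ) ∣ Q := (C_dvd_iff_dvd_coeff _ _).2 fun i => by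
    have := congrArg (fun f => coeff f i) k2
    simp only [coeff_map, coeff_zero, eq_intCast] at this
    exact (ZMod.intCast_zmod_eq_zero_iff_dvd _ _).1 this
  have k3 : ∀ c d : ℤ, (C d * (D.comp (C c * X + 2) - 2)).natDegree ≤ p := fun c d => by
    refine (natDegree_C_mul_le _ _).trans ((natDegree_sub_le _ _).trans (max_le ?_ (by simp)))
    refine natDegree_comp_le.trans ?_
    have h3 : (C c * X + 2 : ℤ[X]).natDegree ≤ 1 := by compute_degree
    have h4 : D.natDegree ≤ p := by simp only [D]; rw [hm]; exact degD _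
    exact (Nat.mul_le_mul h4 h3).trans (by omega)
  have k4 : E.natDegree ≤ p := by
    rw [← natDegree_C_mul hp0, ← hE]
    exact (natDegree_sub_le _ _).trans (max_le (k3 a b) (k3 b a))
  have k5 : (E.map (Int.castRingHom (ZMod p))).natDegree ≤ p := natDegree_map_le.trans k4
  have k6 : derivative E =
      C a * C b * ((U p).comp (C a * X + 2) - (U p).comp (C b * X + 2)) := by
    refine mul_left_cancel₀ (C_ne_zero.2 hp0) ?_
    rw [← derivative_C_mul, ← hE]
    simp only [Q, D, derivative_sub, derivative_C_mul, derivative_comp, der, derivative_add,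
      derivative_X, derivative_ofNat, mul_comp, natCast_comp, map_natCast]
    ring
  refine ⟨reflect p (E.map (Int.castRingHom (ZMod p))), natDegree_reflect_le.trans
    (max_le le_rfl k5), ?_, fun r hr ha hb => ?_⟩
  · have h3 : p / 2 = m := by omega
    have h4 : p - 1 = 2 * m := by omega
    rw [Ode, refl_der p _ k5, derivative_map, k6, h3, h4]
    simp only [Polynomial.map_sub, map_comp, mapU p m hm, Polynomial.map_add, Polynomial.map_mul,
      map_C, map_X, Polynomial.map_ofNat, pow_comp, X_comp, Int.coe_castRingHom, sub_comp, C_comp]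
    rw [← C_mul, reflect_C_mul, reflect_sub, refl_q, refl_q, neg_mul]
  · let _ := invertibleOfNonzero hr
    have h3 : (p : ℤ) ∣ E.eval r := by
      have h4 : (p : ℤ) * E.eval r = b * (D.eval (a * r + 2) - (a * r + 2)) -
          a * (D.eval (b * r + 2) - (b * r + 2)) := by
        rw [← eval_C_mul, ← hE]
        simp only [Q, eval_sub, eval_mul, eval_C, eval_comp, eval_add, eval_X, eval_ofNat]
        ring
      have h5 : (p : ℤ) ^ 2 ∣ p * E.eval r := h4 ▸ dvd_sub (ha.mul_left b) (hb.mul_left a)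
      rwa [sq, mul_dvd_mul_iff_left hp0] at h5
    have h6 := (eval₂_reflect_eq_zero_iff (RingHom.id (ZMod p)) (r : ZMod p) p _ k5).2 (by
      rw [eval₂_id, eval_intCast_map]
      exact (ZMod.intCast_zmod_eq_zero_iff_dvd _ _).2 h3)
    rwa [eval₂_id, invOf_eq_inv] at h6

end Pool.Agent.P.MP_657a03_nt.G3
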