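import Pool.Agent.P.MP_657a03_nt.G3.Iface

/-! Step ONE. -/

set_option autoImplicit false

namespace Pool.Agent.P.MP_657a03_nt.G3

open NumberField Polynomial Finset
open scoped Classical
open Pool.Agent.P.MP_657a03_nt.G5

namespace ONEc

variable {F : Type} [Field F]

lemma th_sum {ι : Type} (Ψ : F[X]) (S : Finset ι) (g : ι → F) (f : ι → F[X]) (n : ℕ) :
    (th Ψ)^[n] (∑ l ∈ S, C (g l) * f l) = ∑ l ∈ S, C (g l) * (th Ψ)^[n] (f l) := by
  induction n with
  | zero => rfl
  | succ n ih =>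
    simp only [Function.iterate_succ_apply', ih]
    rw [th, derivative_sum, mul_sum]
    exact sum_congr rfl fun l _ => by rw [derivative_C_mul, th]; ring

lemma blocks (p K : ℕ) : ∀ B : ℕ → F[X], (∀ k < K, X ^ p ∣ B k → B k = 0) →
    ∑ k ∈ range K, B k * X ^ (p * k) = 0 → ∀ k < K, B k = 0 := by
  induction K with
  | zero => intro _ _ _ k hk; omega
  | succ K ih =>
    intro B h h0
    have e : ∑ k ∈ range (K + 1), B k * X ^ (p * k) =
        X ^ p * ∑ k ∈ range K, B (k + 1) * X ^ (p * k) + B 0 := by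
      rw [sum_range_succ', mul_sum]
      simp only [mul_zero, pow_zero, mul_one]
      congr 1
      exact sum_congr rfl fun k _ => by ring
    rw [e] at h0
    have b0 : B 0 = 0 := h 0 (by omega) ⟨-∑ k ∈ range K, B (k + 1) * X ^ (p * k), by
      linear_combination h0⟩
    rw [b0, add_zero, mul_eq_zero] at h0
    have h1 := ih (fun k => B (k + 1)) (fun k hk => h _ (by omega))
      (h0.resolve_left (pow_ne_zero _ X_ne_zero))
    rintro (_ | k) hk
    · exact b0
    · exact h1 k (by omega)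

lemma rel {ι : Type} (S : Finset ι) (D E : ℕ) (R : ι → ℕ → F[X]) (hc : D * E < S.card)
    (hR : ∀ l ∈ S, ∀ n < D, (R l n).natDegree < E) :
    ∃ g : ι → F, (∀ n < D, ∑ l ∈ S, C (g l) * R l n = 0) ∧ ∃ l ∈ S, g l ≠ 0 := by
  have h : ¬ LinearIndepOn F (fun l (q : Fin D × Fin E) => (R l q.1).coeff q.2) S := fun h => by
    have := LinearIndependent.fintype_card_le_finrank h
    simp at this
    omega
  obtain ⟨g, h1, h2⟩ := not_linearIndepOn_finset_iff.mp h
  refine ⟨g, fun n hn => Polynomial.ext fun e => ?_, h2⟩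
  rw [finsetSum_coeff, coeff_zero]
  simp only [coeff_C_mul]
  by_cases he : e < E
  · simpa using congrFun h1 (⟨n, hn⟩, ⟨e, he⟩)
  · exact sum_eq_zero fun l hl => by
      rw [coeff_eq_zero_of_natDegree_lt (by have := hR l hl n hn; omega), mul_zero]

lemma count (S : Finset F) (G : F[X]) (D : ℕ) (hG : G ≠ 0) (h : ∀ x ∈ S, (X - C x) ^ D ∣ G) :
    D * S.card ≤ G.natDegree := by
  have h1 : ∏ x ∈ S, (X - C x) ^ D ∣ G := prod_dvd_of_coprime
    (fun x _ y _ hxy => (pairwise_coprime_X_sub_C Function.injective_id hxy).pow) h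
  have h2 := natDegree_le_of_dvd h1 hG
  rw [natDegree_prod_of_monic _ _ fun x _ => (monic_X_sub_C x).pow D] at h2
  simpa [natDegree_pow, mul_comm] using h2

end ONEc

theorem p_ONE (hZERO : S_ZERO) (hGEN : S_GEN) (hORD : S_ORD) :
    S_ONE := by
  intro p _ a b s t H c hp ha hb hab hH hO hc hcp
  choose R hR1 hR2 using fun i j k n => hGEN p a b s t H i j k n hO
  obtain ⟨g, h1, l₀, hl₀, h2⟩ := ONEc.rel (range (2 * c) ×ˢ range (2 * c) ×ˢ range (c ^ 2)) (c ^ 2)
    (3 * c ^ 2 + 2 * c) (fun l n => R l.2.2 l.2.1 l.1 n)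
    (by
      simp only [card_product, card_range]
      have : 2 * c < c ^ 2 := by nlinarith
      have : 0 < c ^ 2 := by positivity
      nlinarith)
    (fun l hl n hn => by
      simp only [mem_product, mem_range] at hl
      have := hR1 l.2.2 l.2.1 l.1 n
      omega)
  have c2 : c ^ 2 ≤ p := by nlinarith
  have hG : ∑ l ∈ range (2 * c) ×ˢ range (2 * c) ×ˢ range (c ^ 2),
      C (g l) * (X ^ l.2.2 * H ^ l.2.1 * X ^ (p * l.1)) ≠ 0 := by
    intro h0
    have hz : ∀ k, X ^ p ∣ ∑ j ∈ range (2 * c), (∑ i ∈ range (c ^ 2), C (g (k, j, i)) * X ^ i) *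
        H ^ j → ∀ j < 2 * c, ∑ i ∈ range (c ^ 2), C (g (k, j, i)) * X ^ i = 0 := fun k h =>
      hZERO p a b H (c ^ 2) (2 * c) (fun j => ∑ i ∈ range (c ^ 2), C (g (k, j, i)) * X ^ i) hp ha hb
        hab hO (fun j => (degree_sum_le _ _).trans_lt ((Finset.sup_lt_iff (WithBot.bot_lt_coe _)).2
          fun i hi => (degree_C_mul_X_pow_le _ _).trans_lt (by exact_mod_cast mem_range.mp hi)))
        (by nlinarith) h
    have h3 := ONEc.blocks p (2 * c) (fun k => ∑ j ∈ range (2 * c),
      (∑ i ∈ range (c ^ 2), C (g (k, j, i)) * X ^ i) * H ^ j)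
      (fun k _ h => sum_eq_zero fun j hj => by rw [hz k h j (mem_range.mp hj), zero_mul])
      (by
        rw [← h0, sum_product]
        refine sum_congr rfl fun k _ => ?_
        rw [sum_product, sum_mul]
        refine sum_congr rfl fun j _ => ?_
        rw [sum_mul, sum_mul]
        exact sum_congr rfl fun i _ => by ring)
    obtain ⟨k, j, i⟩ := l₀
    simp only [mem_product, mem_range] at hl₀
    have h4 := congrArg (fun f => coeff f i) (hz k (by rw [h3 k hl₀.1]; exact dvd_zero _) j hl₀.2.1)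
    simp [hl₀.2.2] at h4
    exact h2 h4
  have h5 := ONEc.count (univ.filter fun x : ZMod p => H.eval x = 0 ∧ (ps a b).eval x ≠ 0 ∧
      (a ^ 2 + 4 * a * x) ^ (p / 2) = s ∧ (b ^ 2 + 4 * b * x) ^ (p / 2) = t) _ (c ^ 2) hG
    fun x hx => by
      obtain ⟨-, x1, x2, x3, x4⟩ := mem_filter.mp hx
      refine hORD p (ps a b) _ x _ x2 c2 fun n hn => ?_
      have := congrArg (eval x) (h1 n hn)
      rw [ONEc.th_sum]
      simp only [eval_finsetSum, eval_mul, eval_C, eval_zero] at this ⊢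
      rw [← this]
      exact sum_congr rfl fun l _ => by rw [hR2 _ _ _ _ x x1 x3 x4]
  have h6 := h5.trans (natDegree_sum_le_of_forall_le (n := c ^ 2 + 4 * c * p) _ _ fun l hl => by
    simp only [mem_product, mem_range] at hl
    refine (natDegree_C_mul_le _ _).trans (natDegree_mul_le.trans ?_)
    have a1 := natDegree_mul_le (p := (X : (ZMod p)[X]) ^ l.2.2) (q := H ^ l.2.1)
    have a2 := natDegree_pow_le (p := H) (n := l.2.1)
    rw [natDegree_X_pow] at a1 ⊢
    have a3 := Nat.mul_le_mul hl.2.1.le hH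
    have a4 := Nat.mul_le_mul_left p hl.1.le
    nlinarith [hl.2.2])
  refine Nat.le_of_mul_le_mul_left ?_ (by omega : 0 < c)
  nlinarith

end Pool.Agent.P.MP_657a03_nt.G3
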