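import Pool.Agent.P.MP_657a03_nt.G3.Iface

/-! Step ORD. -/

set_option autoImplicit false

namespace Pool.Agent.P.MP_657a03_nt.G3

open NumberField Polynomial Finset
open scoped Classical
open Pool.Agent.P.MP_657a03_nt.G5

namespace ORDc

theorem lift {p : ℕ} [Fact p.Prime] (f : (ZMod p)[X]) (x : ZMod p) (h0 : f.eval x = 0) (D : ℕ)
    (hD : D + 1 ≤ p) (h : (X - C x) ^ D ∣ derivative f) : (X - C x) ^ (D + 1) ∣ f := by
  induction D with
  | zero => simpa using dvd_iff_isRoot.2 h0
  | succ D ih =>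
    obtain ⟨g, rfl⟩ := ih (by omega) ((pow_dvd_pow _ (Nat.le_succ D)).trans h)
    rw [derivative_mul, derivative_X_sub_C_pow, Nat.add_sub_cancel,
      dvd_add_left (dvd_mul_right _ _), pow_succ, mul_comm (C _), mul_assoc,
      mul_dvd_mul_iff_left (pow_ne_zero _ (X_sub_C_ne_zero x)), dvd_iff_isRoot, IsRoot.def,
      eval_mul, eval_C, mul_eq_zero] at h
    have h1 : ((D + 1 : ℕ) : ZMod p) ≠ 0 := fun e =>
      absurd (Nat.le_of_dvd (Nat.succ_pos D) ((ZMod.natCast_eq_zero_iff _ _).1 e)) (by omega)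
    rw [pow_succ _ (D + 1)]
    exact mul_dvd_mul_left _ (dvd_iff_isRoot.2 (h.resolve_left h1))

end ORDc

theorem p_ORD :
    S_ORD := by
  intro p _ Ψ f x D hΨ hD h
  induction D generalizing f with
  | zero => simp
  | succ D ih =>
    have h1 := ih (th Ψ f) (by omega) fun n hn => by
      rw [← Function.iterate_succ_apply]
      exact h _ (by omega)
    have h2 : IsCoprime (X - C x) Ψ :=
      (irreducible_X_sub_C x).coprime_iff_not_dvd.2 fun e => hΨ (dvd_iff_isRoot.1 e)
    exact ORDc.lift f x (h 0 (by omega)) D hD (h2.pow_left.dvd_of_dvd_mul_left h1)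

end Pool.Agent.P.MP_657a03_nt.G3
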