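import Pool.Agent.P.MP_657a03_nt.G3.Iface

/-! Step PICK. -/

set_option autoImplicit false

namespace Pool.Agent.P.MP_657a03_nt.G3

open NumberField Polynomial Finset
open scoped Classical
open Pool.Agent.P.MP_657a03_nt.G5

namespace PICKc

theorem nd {p : ℕ} {n : ℤ} (h0 : 0 < n) (h1 : n < p) : ¬ (p : ℤ) ∣ n :=
  fun h => absurd (Int.le_of_dvd h0 h) (by omega)

theorem pair (hODE : S_ODE) (hSTEP : S_STEP) {p c : ℕ} (hp : p.Prime) (hp2 : p ≠ 2) (hc : 3 ≤ c)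
    (hc' : 8 * c ^ 3 < p) {a b : ℤ} (ha : 0 < a) (hab : a < b) (hb : b < p) (f : ℕ → ℤ)
    (R : Finset ℕ) (h0 : ∀ s ∈ R, ¬ (p : ℤ) ∣ f s)
    (hi : ∀ s ∈ R, ∀ s' ∈ R, (p : ℤ) ∣ f s - f s' → s = s') :
    c * (R.filter fun s => W p (a * f s + 2) ∧ W p (b * f s + 2)).card ≤ 20 * p := by
  have := Fact.mk hp
  obtain ⟨H, h1, h2, h3⟩ := hODE p a b hp2
  have z : ∀ n : ℤ, ¬ (p : ℤ) ∣ n → (n : ZMod p) ≠ 0 := fun n h e =>
    h ((ZMod.intCast_zmod_eq_zero_iff_dvd _ _).1 e)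
  refine le_trans (Nat.mul_le_mul_left _ ?_) (hSTEP p a b H c hp2 (z _ (nd ha (by omega)))
    (z _ (nd (by omega) hb)) (fun e => nd (p := p) (n := b - a) (by omega) (by omega)
      ((ZMod.intCast_eq_intCast_iff_dvd_sub _ _ _).1 e)) h1 h2 hc hc')
  refine Finset.card_le_card_of_injOn (fun s => ((f s : ℤ) : ZMod p)⁻¹) (fun s hs => ?_)
    fun s hs s' hs' e => ?_
  · rw [Finset.mem_coe, Finset.mem_filter] at hs ⊢
    exact ⟨Finset.mem_univ _, h3 _ (z _ (h0 s hs.1)) hs.2.1 hs.2.2⟩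
  · rw [Finset.mem_coe, Finset.mem_filter] at hs hs'
    exact hi s hs.1 s' hs'.1 ((ZMod.intCast_eq_intCast_iff_dvd_sub _ _ _).1 (inv_injective e).symm)

/-- the three parameters -/
def ff (τ : Fin 3) (s : ℕ) : ℤ := ![2 * (s : ℤ), -2 * s, -s ^ 2] τ

/-- the multipliers -/
def aa (τ : Fin 3) (j : Fin 4) : ℤ := ![(j : ℤ) + 1, j + 1, (j + 1) ^ 2] τ

end PICKc

open PICKc in
theorem p_PICK (hDP : S_DP) (hODE : S_ODE) (hSTEP : S_STEP) : S_PICK := by
  intro p c hp hc hc'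
  have hP := Nat.prime_iff_prime_int.1 hp
  have h1 : 8 * (4000 * c) < p := by
    have : 4000 * c ≤ c ^ 3 := by
      calc 4000 * c ≤ c * c := Nat.mul_le_mul_right _ hc
        _ ≤ c * c * c := Nat.le_mul_of_pos_right _ (by omega)
        _ = c ^ 3 := by ring
    omega
  have hp2 : p ≠ 2 := by omega
  obtain ⟨L, hL1, hL2⟩ : ∃ L, 360 * p < c * L ∧ c * L ≤ 360 * p + c :=
    ⟨360 * p / c + 1, Nat.lt_mul_div_succ _ (by omega), by
      have := Nat.mul_div_le (360 * p) c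
      rw [mul_add]; omega⟩
  have hL3 : 10 * L ≤ p := by
    have := Nat.mul_le_mul_right L hc
    omega
  let R := Finset.Ico 5 (5 + L)
  let A : Finset (Fin 3 × Fin 4 × Fin 4) := univ.filter fun x => x.2.1 < x.2.2
  let B : Fin 3 × Fin 4 × Fin 4 → Finset ℕ := fun x => R.filter fun s =>
    W p (aa x.1 x.2.1 * ff x.1 s + 2) ∧ W p (aa x.1 x.2.2 * ff x.1 s + 2)
  have hB : ∀ x ∈ A, c * (B x).card ≤ 20 * p := by
    intro x hx
    have ha : ∀ x ∈ A, 0 < aa x.1 x.2.1 ∧ aa x.1 x.2.1 < aa x.1 x.2.2 ∧ aa x.1 x.2.2 ≤ 16 := by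
      decide
    obtain ⟨a1, a2, a3⟩ := ha x hx
    refine pair hODE hSTEP hp hp2 (by omega) hc' a1 a2 (by omega) _ R (fun s hs h => ?_)
      fun s hs s' hs' h => ?_
    · rw [Finset.mem_Ico] at hs
      have h2 : (p : ℤ) ∣ (2 * s) * s := by
        generalize x.1 = τ at h
        fin_cases τ
        · exact h.mul_right _
        · exact h.trans ⟨-s, by simp [ff]⟩
        · exact h.trans ⟨-2, by simp [ff]; ring⟩
      exact (hP.dvd_or_dvd h2).elim (nd (by omega) (by omega)) (nd (by omega) (by omega))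
    · rw [Finset.mem_Ico] at hs hs'
      have h2 : (p : ℤ) ∣ (2 * (s + s')) * (s - s') := by
        generalize x.1 = τ at h
        fin_cases τ
        · exact h.trans ⟨s + s', by simp [ff]; ring⟩
        · exact h.trans ⟨-(s + s'), by simp [ff]; ring⟩
        · exact h.trans ⟨-2, by simp [ff]; ring⟩
      have := Int.eq_zero_of_abs_lt_dvd
        ((hP.dvd_or_dvd h2).resolve_left (nd (by omega) (by omega))) (by
          rw [abs_lt]; constructor <;> omega)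
      omega
  obtain ⟨s, hs, hsB⟩ : ∃ s ∈ R, s ∉ A.biUnion B := by
    refine Finset.exists_mem_notMem_of_card_lt_card (Nat.lt_of_mul_lt_mul_left (a := c) ?_)
    have hA : A.card = 18 := by decide
    have h2 := Nat.mul_le_mul_left c (Finset.card_biUnion_le (s := A) (t := B))
    rw [Finset.mul_sum] at h2
    have h3 := Finset.sum_le_card_nsmul _ _ _ hB
    rw [hA, smul_eq_mul] at h3
    rw [Nat.card_Ico, Nat.add_sub_cancel_left]
    omega
  obtain ⟨j, hj⟩ : ∃ j : Fin 4, ∀ τ, ¬ W p (aa τ j * ff τ s + 2) := by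
    by_contra! h
    choose τ hτ using h
    obtain ⟨j, j', hne, e⟩ := Fintype.exists_ne_map_eq_of_card_lt τ (by simp)
    wlog hlt : j < j' generalizing j j'
    · exact this j' j hne.symm e.symm (lt_of_le_of_ne (not_lt.1 hlt) hne.symm)
    exact hsB (Finset.mem_biUnion.2 ⟨(τ j, j, j'), by simpa [A] using hlt,
      Finset.mem_filter.2 ⟨hs, hτ j, e ▸ hτ j'⟩⟩)
  rw [Finset.mem_Ico] at hs
  have hj4 := j.2
  have hy1 : s ≤ (j + 1) * s := Nat.le_mul_of_pos_left _ (by omega)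
  have hy2 : (j + 1) * s ≤ 4 * s := Nat.mul_le_mul_right _ (by omega)
  refine ⟨(j + 1) * s, by omega, ?_, ?_⟩
  · have := Nat.mul_le_mul_left c (hy2.trans (by omega : 4 * s ≤ 4 * (5 + L)))
    have e : c * (4 * (5 + L)) = 20 * c + 4 * (c * L) := by ring
    omega
  have k0 := hj 0
  have k1 := hj 1
  have k2 := hj 2
  have e : (((j + 1) * s : ℕ) : ℤ) = ((j : ℕ) + 1) * s := by push_cast; ring
  simp only [aa, ff, Matrix.cons_val_zero, Matrix.cons_val_one, Matrix.cons_val] at k0 k1 k2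
  generalize (j + 1) * s = y at hy1 hy2 e
  have n0 : ¬ (p : ℤ) ∣ 4 * y := nd (by omega) (by omega) ∘ fun h =>
    (hP.dvd_or_dvd h).resolve_left (nd (by omega) (by omega))
  have n1 : ¬ (p : ℤ) ∣ y + 2 := nd (by omega) (by omega)
  have n2 : ¬ (p : ℤ) ∣ y - 2 := nd (by omega) (by omega)
  rintro _ (rfl | rfl | rfl)
  · have n : ¬ (p : ℤ) ∣ (2 * y + 2) ^ 2 - 4 := fun h =>
      (hP.dvd_or_dvd (h.trans ⟨1, by ring⟩)).elim n0 n1
    refine ⟨n, fun h => k0 ?_⟩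
    convert (hDP p _ hp hp2).1 n h using 1
    rw [e]; ring
  · have n : ¬ (p : ℤ) ∣ (2 * y - 2) ^ 2 - 4 := fun h =>
      (hP.dvd_or_dvd (h.trans ⟨1, by ring⟩)).elim n0 n2
    refine ⟨n, fun h => k1 ?_⟩
    convert ((hDP p _ hp hp2).2 ((hDP p _ hp hp2).1 n h)).1 using 1
    rw [e]; ring
  · have n : ¬ (p : ℤ) ∣ (y : ℤ) ^ 2 - 4 := fun h =>
      (hP.dvd_or_dvd (h.trans ⟨1, by ring⟩)).elim n1 n2
    refine ⟨n, fun h => k2 ?_⟩
    convert ((hDP p _ hp hp2).2 ((hDP p _ hp hp2).2 ((hDP p _ hp hp2).1 n h)).2).1 using 1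
    rw [e]; ring

end Pool.Agent.P.MP_657a03_nt.G3
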