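import Pool.Agent.P.MP_657a03_nt.G3.Iface

/-! Step QH. -/

set_option autoImplicit false

namespace Pool.Agent.P.MP_657a03_nt.G3

open NumberField Polynomial Finset
open scoped Classical
open Pool.Agent.P.MP_657a03_nt.G5

namespace QHc

open scoped nonZeroDivisors

variable {K : Type} [Field K] [NumberField K]

theorem disc_le {ι : Type} [Fintype ι] [DecidableEq ι] (v : ι → 𝓞 K) (hv : LinearIndependent ℤ v)
    (hc : Fintype.card ι = Module.finrank ℚ K) : |discr K| ≤ |Algebra.discr ℤ v| := by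
  let b := (RingOfIntegers.basis K).reindex (Fintype.equivOfCardEq (β := ι) (by
    rw [hc, ← RingOfIntegers.rank, Module.finrank_eq_card_chooseBasisIndex]))
  have h0 : (b.toMatrix v).det ≠ 0 := fun e => by
    obtain ⟨c, c0, hc⟩ := Matrix.exists_mulVec_eq_zero_iff.2 e
    refine c0 (funext (Fintype.linearIndependent_iff.1 hv c (b.ext_elem fun i => ?_)))
    rw [map_sum, Finsupp.finsetSum_apply]
    simp only [map_smul, Finsupp.smul_apply, smul_eq_mul]
    simpa [Matrix.mulVec, dotProduct, Module.Basis.toMatrix_apply, mul_comm] using congrFun hc i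
  rw [← b.toMatrix_map_vecMul v, Algebra.discr_of_matrix_vecMul, discr_eq_discr, abs_mul, abs_pow]
  exact le_mul_of_one_le_left (abs_nonneg _) (one_le_pow₀ (Int.one_le_abs h0))

theorem tr_le (hr : Module.finrank ℚ K = 2) (x : 𝓞 K) (A : ℝ) (h : ∀ φ : K →ₐ[ℚ] ℂ, ‖φ x‖ ≤ A) :
    |((Algebra.trace ℤ _ x : ℤ) : ℝ)| ≤ 2 * A := by
  have e := trace_eq_sum_embeddings ℂ (K := ℚ) (x := (x : K))
  rw [← Algebra.coe_trace_int, map_intCast] at e
  have := (norm_sum_le _ _).trans (Finset.sum_le_card_nsmul Finset.univ _ _ fun φ _ => h φ)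
  rw [← e, Complex.norm_intCast, Finset.card_univ, AlgHom.card, nsmul_eq_mul, hr] at this
  exact_mod_cast this

theorem ind {w : 𝓞 K} {e : ℤ} (hw : w ^ 2 = e) (he : ¬ IsSquare e) :
    LinearIndependent ℤ ![1, w] := by
  refine LinearIndependent.pair_iff.2 fun a b h => ?_
  have h1 : a ^ 2 = b ^ 2 * e := by
    have : ((a ^ 2 : ℤ) : 𝓞 K) = (b ^ 2 * e : ℤ) := by
      simp only [zsmul_eq_mul, mul_one] at h
      push_cast
      rw [← hw]
      linear_combination ((a : 𝓞 K) - b * w) * h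
    exact_mod_cast this
  have hb : b = 0 := by
    by_contra hb
    obtain ⟨c, rfl⟩ : b ∣ a := (Int.pow_dvd_pow_iff two_ne_zero).1 ⟨e, h1⟩
    exact he ⟨c, mul_left_cancel₀ (pow_ne_zero 2 hb) (by rw [← h1]; ring)⟩
  rw [hb] at h1
  exact ⟨by simpa using h1, hb⟩

theorem disc (hr : Module.finrank ℚ K = 2) {w : 𝓞 K} {e : ℤ} (hw : w ^ 2 = e)
    (he : ¬ IsSquare e) : |(discr K : ℝ)| ≤ 8 * e.natAbs := by
  have e1 : ∀ φ : K →ₐ[ℚ] ℂ, ‖φ w‖ ^ 2 = e.natAbs := fun φ => by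
    have : φ w ^ 2 = e := by
      rw [← map_pow, ← map_intCast φ]
      exact congrArg φ (by rw [RingOfIntegers.coe_eq_algebraMap, ← map_pow, hw, map_intCast])
    rw [← norm_pow, this, Complex.norm_intCast, ← Int.cast_abs, Int.abs_eq_natAbs, Int.cast_natCast]
  have t1 := tr_le hr (1 * 1) 1 fun φ => by simp
  have t2 := tr_le hr w √(e.natAbs : ℝ) fun φ => Real.le_sqrt_of_sq_le (e1 φ).le
  have t3 := tr_le hr (w * w) (e.natAbs : ℝ) fun φ => by
    rw [RingOfIntegers.coe_eq_algebraMap, map_mul, map_mul, norm_mul, ← sq]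
    exact (e1 φ).le
  have h := disc_le _ (ind hw he) (by simp [hr])
  rw [Algebra.discr_def, Matrix.det_fin_two] at h
  simp only [Algebra.traceMatrix_apply, Algebra.traceForm_apply, Matrix.cons_val_zero,
    Matrix.cons_val_one, mul_one w, one_mul w] at h
  have h' : |(discr K : ℝ)| ≤ |((Algebra.trace ℤ (𝓞 K) (1 * 1) : ℤ) : ℝ) *
      (Algebra.trace ℤ (𝓞 K) (w * w) : ℤ) - (Algebra.trace ℤ (𝓞 K) w : ℤ) *
      (Algebra.trace ℤ (𝓞 K) w : ℤ)| := by exact_mod_cast h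
  refine h'.trans ((abs_sub _ _).trans ?_)
  rw [abs_mul, abs_mul]
  have a := mul_le_mul t1 t3 (abs_nonneg _) (by norm_num)
  have b := mul_le_mul t2 t2 (abs_nonneg _) (by positivity)
  have c := Real.mul_self_sqrt (Nat.cast_nonneg (α := ℝ) e.natAbs)
  nlinarith

theorem lg (M : ℕ) : (M * (1 + Real.log M) : ℝ) ^ 3 ≤ 27 * M ^ 4 := by
  rcases Nat.eq_zero_or_pos M with rfl | h
  · simp
  have h1 : (1 : ℝ) ≤ M := by exact_mod_cast h
  have h2 := Real.log_le_sub_one_of_pos (Real.rpow_pos_of_pos (by linarith : (0 : ℝ) < M) (1 / 3))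
  rw [Real.log_rpow (by linarith)] at h2
  have h3 : ((M : ℝ) ^ (1 / 3 : ℝ)) ^ 3 = M := by
    rw [← Real.rpow_natCast, ← Real.rpow_mul (by linarith)]; norm_num
  have h4 : (1 + Real.log M) ^ 3 ≤ (3 * (M : ℝ) ^ (1 / 3 : ℝ)) ^ 3 :=
    pow_le_pow_left₀ (by linarith [Real.log_nonneg h1]) (by linarith) 3
  rw [mul_pow, h3] at h4
  rw [mul_pow]
  calc _ ≤ (M : ℝ) ^ 3 * (3 ^ 3 * M) := mul_le_mul_of_nonneg_left h4 (by positivity)
    _ = _ := by ring

end QHc

open QHc in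
theorem p_QH (hIDL : S_IDL) :
    S_QH := by
  refine ⟨27 * 32 ^ 2, fun k _ _ w e hr hw he => ?_⟩
  have hd := disc hr hw he
  obtain ⟨M, hM⟩ : ∃ M, M = ⌊2 * √(8 * e.natAbs : ℝ)⌋₊ := ⟨_, rfl⟩
  have m2 : (M : ℝ) ^ 2 ≤ 32 * e.natAbs := by
    have h1 : (M : ℝ) ≤ 2 * √(8 * e.natAbs : ℝ) := hM ▸ Nat.floor_le (by positivity)
    refine (pow_le_pow_left₀ (by positivity) h1 2).trans ?_
    rw [mul_pow, Real.sq_sqrt (by positivity)]
    linarith
  have hc : ∀ c : ClassGroup (𝓞 k), ∃ I : nonZeroDivisors (Ideal (𝓞 k)), ClassGroup.mk0 I = c ∧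
      Ideal.absNorm (I : Ideal (𝓞 k)) ≤ M := fun c => by
    obtain ⟨I, hI, hN⟩ := exists_ideal_in_class_of_norm_le c
    refine ⟨I, hI, hM ▸ Nat.le_floor (hN.trans ?_)⟩
    have a1 : (4 / Real.pi) ^ InfinitePlace.nrComplexPlaces k ≤ (2 : ℝ) := by
      have := InfinitePlace.card_add_two_mul_card_eq_rank k
      have h1 : 4 / Real.pi ≤ 2 := by
        rw [div_le_iff₀ Real.pi_pos]
        linarith [Real.two_le_pi]
      have h2 : InfinitePlace.nrComplexPlaces k ≤ 1 := by omega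
      rcases Nat.le_one_iff_eq_zero_or_eq_one.1 h2 with h | h <;> rw [h]
      · norm_num
      · rwa [pow_one]
    have a2 : ((Module.finrank ℚ k).factorial : ℝ) /
        (Module.finrank ℚ k : ℝ) ^ Module.finrank ℚ k ≤ 1 :=
      div_le_one_of_le₀ (by exact_mod_cast Nat.factorial_le_pow _) (by positivity)
    exact mul_le_mul a1 ((mul_le_of_le_one_left (by positivity) a2).trans (Real.sqrt_le_sqrt hd))
      (by positivity) (by positivity)
  choose f f1 f2 using hc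
  have hh : classNumber k ≤ Set.ncard {I : Ideal (𝓞 k) | I ≠ ⊥ ∧ Ideal.absNorm I ≤ M} := by
    rw [classNumber, ← Nat.card_eq_fintype_card, ← Set.ncard_univ]
    refine Set.ncard_le_ncard_of_injOn (fun c => (f c : Ideal (𝓞 k)))
      (fun c _ => ⟨nonZeroDivisors.coe_ne_zero _, f2 c⟩) (fun c _ c' _ h => ?_)
      ((Ideal.finite_setOfPred_absNorm_le M).subset fun I hI => hI.2)
    rw [← f1 c, ← f1 c', Subtype.ext h]
  have h1 : (classNumber k : ℝ) ≤ M * (1 + Real.log M) :=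
    (Nat.cast_le.2 hh).trans (hIDL k M hr)
  have h2 := (pow_le_pow_left₀ (by positivity) h1 3).trans (lg M)
  have h3 := pow_le_pow_left₀ (by positivity) m2 2
  have : ((classNumber k ^ 3 : ℕ) : ℝ) ≤ (27 * 32 ^ 2 * e.natAbs ^ 2 : ℕ) := by
    push_cast at h3 ⊢
    nlinarith
  exact_mod_cast this

end Pool.Agent.P.MP_657a03_nt.G3
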