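import Pool.Agent.P.MP_657a03_nt.G3.Iface

/-! Step STEP. -/

set_option autoImplicit false

namespace Pool.Agent.P.MP_657a03_nt.G3

open NumberField Polynomial Finset
open scoped Classical
open Pool.Agent.P.MP_657a03_nt.G5

namespace STEPc

end STEPc

theorem p_STEP (hONE : S_ONE) :
    S_STEP := by
  intro p _ a b H c p2 ha hb hab hH hO c3 hc
  have h2 : (2 : ZMod p) ≠ 0 := by
    intro h
    have : p ∣ 2 := (ZMod.natCast_eq_zero_iff 2 p).1 (by exact_mod_cast h)
    exact p2 ((Nat.prime_dvd_prime_iff_eq Fact.out Nat.prime_two).1 this)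
  have h4 : (4 : ZMod p) ≠ 0 := by
    rw [show (4 : ZMod p) = 2 * 2 by norm_num]; exact mul_ne_zero h2 h2
  let F : ZMod p → ZMod p → Finset (ZMod p) := fun s t => univ.filter fun x : ZMod p =>
    H.eval x = 0 ∧ (ps a b).eval x ≠ 0 ∧
      (a ^ 2 + 4 * a * x) ^ (p / 2) = s ∧ (b ^ 2 + 4 * b * x) ^ (p / 2) = t
  have hF : ∀ s t, c * (F s t).card ≤ c + 4 * p := fun s t =>
    hONE p a b s t H c p2 ha hb hab hH hO c3 hc
  have sub : (univ.filter fun x : ZMod p => H.eval x = 0) ⊆
      {0, -a / 4, -b / 4} ∪ F 1 1 ∪ F 1 (-1) ∪ F (-1) 1 ∪ F (-1) (-1) := by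
    intro x hx
    have hx := (mem_filter.1 hx).2
    have e : (ps a b).eval x = x * (a + 4 * x) * (b + 4 * x) := by simp [ps]
    simp only [mem_union, mem_insert, mem_singleton, F, mem_filter, mem_univ, true_and]
    by_cases h0 : (ps a b).eval x = 0
    · rw [e, mul_eq_zero, mul_eq_zero] at h0
      refine Or.inl (Or.inl (Or.inl (Or.inl ?_)))
      rcases h0 with (h | h) | h
      · exact Or.inl h
      · exact Or.inr (Or.inl (by rw [eq_div_iff h4]; linear_combination h))
      · exact Or.inr (Or.inr (by rw [eq_div_iff h4]; linear_combination h))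
    · have h1 := h0
      rw [e] at h1
      have u : a ^ 2 + 4 * a * x ≠ 0 := by
        rw [show a ^ 2 + 4 * a * x = a * (a + 4 * x) by ring]
        exact mul_ne_zero ha (right_ne_zero_of_mul (left_ne_zero_of_mul h1))
      have v : b ^ 2 + 4 * b * x ≠ 0 := by
        rw [show b ^ 2 + 4 * b * x = b * (b + 4 * x) by ring]
        exact mul_ne_zero hb (right_ne_zero_of_mul h1)
      rcases ZMod.pow_div_two_eq_neg_one_or_one p u with s | s <;>
        rcases ZMod.pow_div_two_eq_neg_one_or_one p v with t | t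
      · exact Or.inl (Or.inl (Or.inl (Or.inr ⟨hx, h0, s, t⟩)))
      · exact Or.inl (Or.inl (Or.inr ⟨hx, h0, s, t⟩))
      · exact Or.inl (Or.inr ⟨hx, h0, s, t⟩)
      · exact Or.inr ⟨hx, h0, s, t⟩
  have cd : (univ.filter fun x : ZMod p => H.eval x = 0).card ≤
      3 + (F 1 1).card + (F 1 (-1)).card + (F (-1) 1).card + (F (-1) (-1)).card :=
    (card_le_card sub).trans ((card_union_le _ _).trans (Nat.add_le_add_right
      ((card_union_le _ _).trans (Nat.add_le_add_right ((card_union_le _ _).trans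
        (Nat.add_le_add_right ((card_union_le _ _).trans
          (Nat.add_le_add_right card_le_three _)) _)) _)) _))
  have cc : c ≤ c ^ 3 := Nat.le_self_pow (by norm_num) c
  have := Nat.mul_le_mul_left c cd
  have a1 := hF 1 1
  have a2 := hF 1 (-1)
  have a3 := hF (-1) 1
  have a4 := hF (-1) (-1)
  simp only [mul_add] at this
  omega

end Pool.Agent.P.MP_657a03_nt.G3
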