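import Pool.Agent.P.MP_657a03_nt.G3.Iface

/-! Step ZERO. -/

set_option autoImplicit false

namespace Pool.Agent.P.MP_657a03_nt.G3

open NumberField Polynomial Finset
open scoped Classical
open Pool.Agent.P.MP_657a03_nt.G5

namespace ZEROc

theorem ind {F : Type} [Field F] {N V : F[X]} (h0 : N ≠ 0) (h1 : N.eval 1 = 0) (h2 : V.eval 1 ≠ 0)
    (A : ℕ) : ∀ c : ℕ → F, ∑ i ∈ range A, C (c i) * N ^ i * V ^ (A - 1 - i) = 0 →
      ∀ i < A, c i = 0 := by
  induction A with
  | zero => intro _ _ i hi; omega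
  | succ A ih =>
    intro c h
    have e : ∑ i ∈ range (A + 1), C (c i) * N ^ i * V ^ (A + 1 - 1 - i) =
        N * ∑ i ∈ range A, C (c (i + 1)) * N ^ i * V ^ (A - 1 - i) + C (c 0) * V ^ A := by
      rw [sum_range_succ', mul_sum]
      congr 1
      · exact sum_congr rfl fun i _ => by
          rw [show A + 1 - 1 - (i + 1) = A - 1 - i by omega]; ring
      · simp
    rw [e] at h
    have h3 : c 0 = 0 := by simpa [h1, h2] using congrArg (eval 1) h
    rw [h3, C_0, zero_mul, add_zero, mul_eq_zero] at h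
    rintro (_ | i) hi
    · exact h3
    · exact ih (fun i => c (i + 1)) (h.resolve_left h0) i (by omega)

end ZEROc

theorem p_ZERO (hHBL : S_HBL) (hLOG : S_LOG) :
    S_ZERO := by
  intro p hp a b H A B P hp2 ha hb hab hH hP hAB hX j hj
  obtain ⟨ρ, h1, h2⟩ := hLOG p a b H hp2 ha hb hab hH
  have hd : a - b ≠ 0 := sub_ne_zero.2 hab
  have hV : (wz a b ^ 2).eval 1 ≠ 0 := by simpa [wz] using hd
  have hN1 : (Nz a b).eval 1 = 0 := by simp [Nz]
  have hN : Nz a b ≠ 0 := by
    refine mul_ne_zero (mul_ne_zero (mul_ne_zero (C_ne_zero.2 (mul_ne_zero ha hb)) X_ne_zero)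
      (X_sub_C_ne_zero 1)) fun h => ha ?_
    simpa using congrArg (eval 0) h
  have hρ : X - 1 ∣ ρ := by
    have := (dvd_pow_self _ hp.out.ne_zero).trans h1
    rw [← C_1, dvd_iff_isRoot, IsRoot] at this ⊢
    rw [eval_sub, hN1, sub_zero, eval_mul] at this
    exact (mul_eq_zero.1 this).resolve_left hV
  have h2' : (-2 * a * b : ZMod p) ≠ 0 := by
    refine mul_ne_zero (mul_ne_zero (neg_ne_zero.2 fun h => hp2 ?_) ha) hb
    exact (Nat.prime_dvd_prime_iff_eq hp.out Nat.prime_two).1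
      ((ZMod.natCast_eq_zero_iff 2 p).1 (by exact_mod_cast h))
  have hA : ∀ j, P j = ∑ i ∈ range A, C ((P j).coeff i) * X ^ i := fun j => by
    by_cases h : P j = 0
    · simp [h]
    · exact as_sum_range_C_mul_X_pow' _ ((natDegree_lt_iff_degree_lt h).2 (hP j))
  have h3 := hHBL p _ _ (4 * A) B (fun j => ∑ i ∈ range A,
    C ((P j).coeff i) * Nz a b ^ i * (wz a b ^ 2) ^ (A - 1 - i)) h2' h2 (fun j => ?_) hAB ?_ j hj
  · rw [hA j]
    exact sum_eq_zero fun i hi => by
      rw [ZEROc.ind hN hN1 hV A _ h3 i (mem_range.1 hi), C_0, zero_mul]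
  · refine (degree_sum_le _ _).trans_lt ((Finset.sup_lt_iff (WithBot.bot_lt_coe _)).2
      fun i hi => degree_le_natDegree.trans_lt (Nat.cast_lt.2 ?_))
    have a1 : (Nz a b).natDegree ≤ 3 := by unfold Nz; compute_degree
    have a2 : (wz a b ^ 2).natDegree ≤ 4 := by unfold wz; compute_degree
    have a3 := natDegree_pow_le_of_le i a1
    have a4 := natDegree_pow_le_of_le (A - 1 - i) a2
    have a5 := natDegree_mul_le (p := C ((P j).coeff i) * Nz a b ^ i)
      (q := (wz a b ^ 2) ^ (A - 1 - i))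
    have a6 := natDegree_C_mul_le ((P j).coeff i) (Nz a b ^ i)
    have := mem_range.1 hi
    omega
  · refine (pow_dvd_pow _ hAB.le).trans ?_
    have h4 : (X - 1) ^ p ∣ (wz a b ^ 2) ^ (A - 1) *
        ∑ j ∈ range B, (P j).comp ρ * H.comp ρ ^ j := by
      obtain ⟨g, hg⟩ := hX
      have := congrArg (comp · ρ) hg
      simp only [Polynomial.sum_comp, mul_comp, pow_comp, X_comp] at this
      rw [this]
      exact ((pow_dvd_pow_of_dvd hρ p).mul_right _).mul_left _
    refine (dvd_iff_dvd_of_dvd_sub ?_).1 h4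
    rw [mul_sum, ← sum_sub_distrib]
    refine dvd_sum fun j _ => ?_
    rw [← mul_assoc, ← sub_mul]
    refine Dvd.dvd.mul_right ?_ _
    conv_rhs => enter [1, 2, 1]; rw [hA j]
    rw [Polynomial.sum_comp, mul_sum, ← sum_sub_distrib]
    refine dvd_sum fun i hi => ?_
    have e : A - 1 = A - 1 - i + i := by have := mem_range.1 hi; omega
    rw [mul_comp, C_comp, pow_comp, X_comp]
    refine ((h1.trans (sub_dvd_pow_sub_pow _ _ i)).mul_left
      (C ((P j).coeff i) * (wz a b ^ 2) ^ (A - 1 - i))).trans (dvd_of_eq ?_)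
    conv_rhs => enter [1, 1]; rw [e]
    ring

end Pool.Agent.P.MP_657a03_nt.G3
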