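import Pool.Agent.P.MP_657a03_nt.G5.TETA
import Pool.Agent.P.MP_657a03_nt.G5.TFIELD
import Pool.Agent.P.MP_657a03_nt.G5.TLUC
import Pool.Agent.P.MP_657a03_nt.G5.TREG
import Pool.Agent.P.MP_657a03_nt.G5.TSIG
import Pool.Agent.P.MP_657a03_nt.G3.TDP
import Pool.Agent.P.MP_657a03_nt.G3.TODE
import Pool.Agent.P.MP_657a03_nt.G3.THBL
import Pool.Agent.P.MP_657a03_nt.G3.TLOG
import Pool.Agent.P.MP_657a03_nt.G3.TZERO
import Pool.Agent.P.MP_657a03_nt.G3.TGEN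
import Pool.Agent.P.MP_657a03_nt.G3.TORD
import Pool.Agent.P.MP_657a03_nt.G3.TONE
import Pool.Agent.P.MP_657a03_nt.G3.TSTEP
import Pool.Agent.P.MP_657a03_nt.G3.TPICK
import Pool.Agent.P.MP_657a03_nt.G3.TIDL
import Pool.Agent.P.MP_657a03_nt.G3.TQH
import Pool.Agent.P.MP_657a03_nt.G3.TNRM
import Pool.Agent.P.MP_657a03_nt.G3.TDESC
import Pool.Agent.P.MP_657a03_nt.G3.TMAIN

/-! Assembly. -/

set_option autoImplicit false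

namespace Pool.Agent.P.MP_657a03_nt.G3

theorem t_MAIN : S_MAIN :=
  p_MAIN G5.p_FIELD G5.p_SIG (G5.p_RANK G5.p_CRIT G5.p_UNIT G5.p_LUC G5.p_FROB G5.p_SIG)
    (G5.p_ETA G5.p_UNIT G5.p_LUC G5.p_REG G5.p_IND)
    (p_PICK (p_DP G5.p_LUC) p_ODE (p_STEP (p_ONE (p_ZERO p_HBL p_LOG) p_GEN p_ORD)))
    (p_QH p_IDL) (p_DESC p_NRM)

end Pool.Agent.P.MP_657a03_nt.G3
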