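import Pool.Agent.P.MP_657a03_nt.G5.If

/-! Statements: triquadratic fields for all large primes. -/

set_option autoImplicit false

namespace Pool.Agent.P.MP_657a03_nt.G3

open NumberField Polynomial Finset
open scoped Classical
open Pool.Agent.P.MP_657a03_nt.G5

noncomputable section

/-- the Wieferich condition for the unit of trace `T` -/
def W (p : ℕ) (T : ℤ) : Prop := (p : ℤ) ^ 2 ∣ (dickson 1 (1 : ℤ) p).eval T - T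

/-- the differential equation -/
def Ode (p : ℕ) (a b : ZMod p) (H : (ZMod p)[X]) : Prop :=
  X * derivative H =
    -C (a * b) * ((C (a ^ 2) + C (4 * a) * X) ^ (p / 2) - (C (b ^ 2) + C (4 * b) * X) ^ (p / 2))

/-- the denominator of the parametrisation of the conic -/
def wz {F : Type} [CommRing F] (a b : F) : F[X] := C a - C b * X ^ 2

/-- the numerator of the parametrisation of the conic -/
def Nz {F : Type} [CommRing F] (a b : F) : F[X] := C (a * b) * X * (X - 1) * (C a - C b * X)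

/-- the derivation -/
def th {F : Type} [CommRing F] (Ψ f : F[X]) : F[X] := Ψ * derivative f

/-- the singular points -/
def ps {F : Type} [CommRing F] (a b : F) : F[X] := X * (C a + 4 * X) * (C b + 4 * X)

-- deps: G5.LUC
def S_DP : Prop :=
  ∀ (p : ℕ) (T : ℤ), p.Prime → p ≠ 2 →
    (¬ (p : ℤ) ∣ T ^ 2 - 4 → (p : ℤ) ^ 2 ∣ (U (p ^ 2 - 1)).eval T → W p T) ∧
    (W p T → W p (-T) ∧ W p (T ^ 2 - 2))

-- deps:
def S_ODE : Prop :=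
  ∀ (p : ℕ) [Fact p.Prime] (a b : ℤ), p ≠ 2 → ∃ H : (ZMod p)[X], H.natDegree ≤ p ∧ Ode p a b H ∧
    ∀ r : ℤ, (r : ZMod p) ≠ 0 → W p (a * r + 2) → W p (b * r + 2) → H.eval (r : ZMod p)⁻¹ = 0

-- deps:
def S_HBL : Prop :=
  ∀ (p : ℕ) [Fact p.Prime] (l : (ZMod p)[X]) (c : ZMod p) (n B : ℕ) (Q : ℕ → (ZMod p)[X]), c ≠ 0 →
    (X - 1) ^ (p - 1) ∣ X * derivative l - C c → (∀ j, (Q j).degree < n) → n * B < p →
    (X - 1) ^ (n * B) ∣ ∑ j ∈ range B, Q j * l ^ j → ∀ j < B, Q j = 0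

-- deps:
def S_LOG : Prop :=
  ∀ (p : ℕ) [Fact p.Prime] (a b : ZMod p) (H : (ZMod p)[X]), p ≠ 2 → a ≠ 0 → b ≠ 0 → a ≠ b →
    Ode p a b H → ∃ ρ : (ZMod p)[X], (X - 1) ^ p ∣ wz a b ^ 2 * ρ - Nz a b ∧
      (X - 1) ^ (p - 1) ∣ X * derivative (H.comp ρ) - C (-2 * a * b)

-- deps: HBL LOG
def S_ZERO : Prop :=
  ∀ (p : ℕ) [Fact p.Prime] (a b : ZMod p) (H : (ZMod p)[X]) (A B : ℕ) (P : ℕ → (ZMod p)[X]),
    p ≠ 2 → a ≠ 0 → b ≠ 0 → a ≠ b → Ode p a b H → (∀ j, (P j).degree < A) → 4 * A * B < p →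
    X ^ p ∣ ∑ j ∈ range B, P j * H ^ j → ∀ j < B, P j = 0

-- deps:
def S_GEN : Prop :=
  ∀ (p : ℕ) [Fact p.Prime] (a b s t : ZMod p) (H : (ZMod p)[X]) (i j k n : ℕ), Ode p a b H →
    ∃ R : (ZMod p)[X], R.natDegree ≤ i + k + 2 * n ∧ ∀ x : ZMod p, H.eval x = 0 →
      (a ^ 2 + 4 * a * x) ^ (p / 2) = s → (b ^ 2 + 4 * b * x) ^ (p / 2) = t →
      ((th (ps a b))^[n] (X ^ i * H ^ j * X ^ (p * k))).eval x = R.eval x

-- deps: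
def S_ORD : Prop :=
  ∀ (p : ℕ) [Fact p.Prime] (Ψ f : (ZMod p)[X]) (x : ZMod p) (D : ℕ), Ψ.eval x ≠ 0 → D ≤ p →
    (∀ n < D, ((th Ψ)^[n] f).eval x = 0) → (X - C x) ^ D ∣ f

-- deps: ZERO GEN ORD
def S_ONE : Prop :=
  ∀ (p : ℕ) [Fact p.Prime] (a b s t : ZMod p) (H : (ZMod p)[X]) (c : ℕ), p ≠ 2 → a ≠ 0 → b ≠ 0 →
    a ≠ b → H.natDegree ≤ p → Ode p a b H → 3 ≤ c → 8 * c ^ 3 < p →
    c * (univ.filter fun x : ZMod p => H.eval x = 0 ∧ (ps a b).eval x ≠ 0 ∧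
      (a ^ 2 + 4 * a * x) ^ (p / 2) = s ∧ (b ^ 2 + 4 * b * x) ^ (p / 2) = t).card ≤ c + 4 * p

-- deps: ONE
def S_STEP : Prop :=
  ∀ (p : ℕ) [Fact p.Prime] (a b : ZMod p) (H : (ZMod p)[X]) (c : ℕ), p ≠ 2 → a ≠ 0 → b ≠ 0 →
    a ≠ b → H.natDegree ≤ p → Ode p a b H → 3 ≤ c → 8 * c ^ 3 < p →
    c * (univ.filter fun x : ZMod p => H.eval x = 0).card ≤ 20 * p

-- deps: DP ODE STEP
def S_PICK : Prop :=
  ∀ p c : ℕ, p.Prime → 4000 ≤ c → 8 * c ^ 3 < p → ∃ y : ℕ, 5 ≤ y ∧ c * y ≤ 1500 * p ∧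
    ∀ s : ℤ, s = 2 * y + 2 ∨ s = 2 * y - 2 ∨ s = y →
      ¬ (p : ℤ) ∣ s ^ 2 - 4 ∧ ¬ (p : ℤ) ^ 2 ∣ (U (p ^ 2 - 1)).eval s

-- deps:
def S_IDL : Prop :=
  ∀ (k : Type) [Field k] [NumberField k] (M : ℕ), Module.finrank ℚ k = 2 →
    (Set.ncard {I : Ideal (𝓞 k) | I ≠ ⊥ ∧ Ideal.absNorm I ≤ M} : ℝ) ≤ M * (1 + Real.log M)

-- deps: IDL
def S_QH : Prop :=
  ∃ c : ℕ, ∀ (k : Type) [Field k] [NumberField k] (w : 𝓞 k) (e : ℤ), Module.finrank ℚ k = 2 →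
    w ^ 2 = e → ¬ IsSquare e → classNumber k ^ 3 ≤ c * e.natAbs ^ 2

-- deps:
def S_NRM : Prop :=
  ∀ (k K : Type) [Field k] [Field K] [NumberField k] [NumberField K] [Algebra k K] [IsGalois k K]
    (I : Ideal (𝓞 K)), ∃ J : Ideal (𝓞 k), J.map (algebraMap (𝓞 k) (𝓞 K)) =
      ∏ σ : K ≃ₐ[k] K, I.map (RingOfIntegers.mapRingHom (σ : K →+* K))

-- deps: NRM
def S_DESC : Prop :=
  ∀ (t : ℕ) (K : Type) [Field K] [NumberField K] (d : Fin t → ℤ) (r : Fin t → 𝓞 K) (p : ℕ),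
    MQ K d r → p.Prime → p ≠ 2 →
    (∀ S : Finset (Fin t), S.Nonempty → ∃ e g : ℤ, e * ∏ i ∈ S, d i = g ^ 2 ∧ e ≠ 0 ∧
      ∀ (k : Type) [Field k] [NumberField k] (w : 𝓞 k), Module.finrank ℚ k = 2 → w ^ 2 = e →
        ¬ p ∣ classNumber k) → ¬ p ∣ classNumber K

-- deps: G5.FIELD G5.SIG G5.RANK G5.ETA PICK QH DESC
def S_MAIN : Prop :=
  ∃ P₀ : ℕ, ∀ p : ℕ, p.Prime → P₀ < p →
    ∃ (K : Type) (_ : Field K) (_ : NumberField K), IsGalois ℚ K ∧ IsTotallyComplex K ∧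
      Nonempty ((K ≃ₐ[ℚ] K) ≃* Multiplicative (Fin 3 → ZMod 2)) ∧ ¬ p ∣ classNumber K ∧
      PRat K p ∧ ∃ (F : Type) (_ : Field F) (_ : NumberField F) (_ : F →+* K) (u : (𝓞 F)ˣ),
        IsGalois ℚ F ∧ IsTotallyReal F ∧ Module.finrank ℚ F = 4 ∧
        Indep F ((1 + p) * u) ∧ RegUnit F ((1 + p) * u) p

end

end Pool.Agent.P.MP_657a03_nt.G3
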