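import Pool.Agent.P.MP_657a03_nt.G3.Iface

/-! Step GEN. -/

set_option autoImplicit false

namespace Pool.Agent.P.MP_657a03_nt.G3

open NumberField Polynomial Finset
open scoped Classical
open Pool.Agent.P.MP_657a03_nt.G5

namespace GENc

variable {p : ℕ} [Fact p.Prime] {a b : ZMod p} {H : (ZMod p)[X]}

/-- polynomials in `X`, `X ^ p`, `H` and two powers, with a bound for the weight -/
inductive Gen (a b : ZMod p) (H : (ZMod p)[X]) : ℕ → (ZMod p)[X] → Prop
  | c (c : ZMod p) : Gen a b H 0 (C c)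
  | x : Gen a b H 1 X
  | hh : Gen a b H 0 H
  | g1 : Gen a b H 0 ((C (a ^ 2) + C (4 * a) * X) ^ (p / 2))
  | g2 : Gen a b H 0 ((C (b ^ 2) + C (4 * b) * X) ^ (p / 2))
  | xp : Gen a b H 1 (X ^ p)
  | add {e : ℕ} {f g : (ZMod p)[X]} : Gen a b H e f → Gen a b H e g → Gen a b H e (f + g)
  | mul {e e' : ℕ} {f g : (ZMod p)[X]} :
      Gen a b H e f → Gen a b H e' g → Gen a b H (e + e') (f * g)
  | mono {e e' : ℕ} {f : (ZMod p)[X]} : Gen a b H e f → e ≤ e' → Gen a b H e' f

theorem Gen.of {e : ℕ} {f g : (ZMod p)[X]} (h : Gen a b H e f) (e' : g = f) : Gen a b H e g :=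
  e' ▸ h

theorem Gen.pow {e : ℕ} {f : (ZMod p)[X]} (h : Gen a b H e f) (n : ℕ) :
    Gen a b H (e * n) (f ^ n) := by
  induction n with
  | zero => exact (Gen.c 1).of (by simp)
  | succ n ih => exact (ih.mul h).of (pow_succ _ _)

theorem lin (c : ZMod p) : Gen a b H 1 (C c + 4 * X) :=
  ((Gen.c c).mono zero_le_one).add (((Gen.c 4).mul .x).of rfl)

theorem der (c : ZMod p) : (C c + 4 * X) * derivative ((C (c ^ 2) + C (4 * c) * X) ^ (p / 2)) =
    C (4 * (p / 2 : ℕ) : ZMod p) * (C (c ^ 2) + C (4 * c) * X) ^ (p / 2) := by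
  obtain ⟨m, hm⟩ : ∃ m, p / 2 = m + 1 :=
    ⟨p / 2 - 1, by have := (Fact.out : p.Prime).two_le; omega⟩
  rw [hm, derivative_pow_succ, derivative_add, derivative_C, derivative_C_mul, derivative_X]
  simp only [map_mul, map_pow, map_ofNat, map_add, map_natCast, map_one, Nat.cast_add, Nat.cast_one]
  ring

theorem Gen.th (ho : Ode p a b H) {e : ℕ} {f : (ZMod p)[X]} (h : Gen a b H e f) :
    Gen a b H (e + 2) (th (ps a b) f) := by
  have z : ∀ e, Gen a b H e 0 := fun e => ((Gen.c 0).mono e.zero_le).of (by simp)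
  induction h with
  | c c => exact (z _).of (by simp [G3.th])
  | x => exact ((Gen.x.mul (lin a)).mul (lin b)).of (by simp [G3.th, ps])
  | hh =>
    refine (((lin a).mul (lin b)).mul (((Gen.c (-(a * b))).mul .g1).add
      ((Gen.c (a * b)).mul .g2))).of ?_
    rw [G3.th, ps, map_neg]
    unfold Ode at ho
    linear_combination (C a + 4 * X) * (C b + 4 * X) * ho
  | g1 =>
    refine ((Gen.x.mul (lin b)).mul ((Gen.c (4 * ((p / 2 : ℕ) : ZMod p))).mul .g1)).of ?_
    rw [G3.th, ps, ← der a]; ring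
  | g2 =>
    refine ((Gen.x.mul (lin a)).mul ((Gen.c (4 * ((p / 2 : ℕ) : ZMod p))).mul .g2)).of ?_
    rw [G3.th, ps, ← der b]; ring
  | xp => exact (z _).of (by simp [G3.th, derivative_X_pow])
  | add _ _ i1 i2 => exact (i1.add i2).of (by simp [G3.th, mul_add])
  | mul h1 h2 i1 i2 =>
    refine (((i1.mul h2).mono (by omega)).add ((h1.mul i2).mono (by omega))).of ?_
    simp only [G3.th, derivative_mul]; ring
  | mono _ h i => exact i.mono (by omega)

theorem Gen.ev (s t : ZMod p) {e : ℕ} {f : (ZMod p)[X]} (h : Gen a b H e f) :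
    ∃ R : (ZMod p)[X], R.natDegree ≤ e ∧ ∀ x : ZMod p, H.eval x = 0 →
      (a ^ 2 + 4 * a * x) ^ (p / 2) = s → (b ^ 2 + 4 * b * x) ^ (p / 2) = t →
      f.eval x = R.eval x := by
  induction h with
  | c c => exact ⟨C c, by simp, fun _ _ _ _ => rfl⟩
  | x => exact ⟨X, by simp, fun _ _ _ _ => rfl⟩
  | hh => exact ⟨0, by simp, fun _ h _ _ => by simpa using h⟩
  | g1 => exact ⟨C s, by simp, fun _ _ h _ => by simpa using h⟩
  | g2 => exact ⟨C t, by simp, fun _ _ _ h => by simpa using h⟩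
  | xp => exact ⟨X, by simp, fun _ _ _ _ => by simp⟩
  | add _ _ i1 i2 =>
    obtain ⟨R, h1, h2⟩ := i1
    obtain ⟨S, h3, h4⟩ := i2
    exact ⟨R + S, natDegree_add_le_of_degree_le h1 h3, fun x u v w => by
      rw [eval_add, eval_add, h2 x u v w, h4 x u v w]⟩
  | mul _ _ i1 i2 =>
    obtain ⟨R, h1, h2⟩ := i1
    obtain ⟨S, h3, h4⟩ := i2
    exact ⟨R * S, natDegree_mul_le.trans (add_le_add h1 h3), fun x u v w => by
      rw [eval_mul, eval_mul, h2 x u v w, h4 x u v w]⟩
  | mono _ h i =>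
    obtain ⟨R, h1, h2⟩ := i
    exact ⟨R, h1.trans h, h2⟩

end GENc

theorem p_GEN :
    S_GEN := by
  intro p _ a b s t H i j k n ho
  refine GENc.Gen.ev s t ?_
  induction n with
  | zero =>
    exact ((((GENc.Gen.x.pow i).mul (GENc.Gen.hh.pow j)).mul (GENc.Gen.xp.pow k)).mono
      (by omega)).of (by rw [pow_mul]; rfl)
  | succ n ih => exact ((ih.th ho).mono (by omega)).of (Function.iterate_succ_apply' _ _ _)

end Pool.Agent.P.MP_657a03_nt.G3
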